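import Pool.Agent.Q47.TB.Defs

/-!
# Pairs with real boundary on toric bundles over quotients of complex tori: definitions
-/

set_option autoImplicit false

namespace Q47.TR

open Pool.Agent.W594.SYZ2 MvPolynomial MeasureTheory

variable {V : Type*} [NormedAddCommGroup V] [NormedSpace ℂ V] {Γ : Subgroup (V ≃ᵃ[ℂ] V)}
  {ι : Type*} [Fintype ι] {r : ℕ}

/-- The pair formed by the toric variety and the divisor `∑ δ_j div f_j` is log canonical: for all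
`c < 1` the function `∏ |f_j| ^ (-2 c δ_j)` is locally integrable on the set of the Cox coordinates
`x` of points. -/
def IsLogCanonical (S : Set (Set ι)) {r : ℕ} (δ : Fin r → ℝ) (f : Fin r → MvPolynomial ι ℂ) :
    Prop :=
  ∀ x : ι → ℂ, {i | x i = 0} ∈ S → ∀ c : ℝ, c < 1 →
    ∃ R > 0, ∫⁻ y in Metric.ball x R, ∏ j, ‖eval y (f j)‖ₑ ^ (-(2 * c * δ j)) < ⊤

omit [Fintype ι] in
/-- The class on the fibres of `t m K_Y + ∑ b_j B_j`, where `B_j` is the divisor of a section of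
`O_Y(d_j; M_j)`. -/
def degY (d : Fin r → ι → ℤ) (m t : ℕ) (b : Fin r → ℕ) (i : ι) : ℤ :=
  ∑ j, (b j : ℤ) * d j i - ((t * m : ℕ) : ℤ)

/-- The line bundle `O_Y(t m K_Y + ∑ b_j B_j)`, where `K = O_X(m K_X)` and `B_j` is the divisor of a
section of `O_Y(d_j; M_j)`, is `O_Y(∑ b_j d_j - t m (1, ..., 1); K^t ⊗ ∏ M_j^{b_j} ⊗ ∏ c_i^{-t m})`;
this is the factor of automorphy of the second component. -/
noncomputable def facY (K : LineBundle Γ) (M : Fin r → LineBundle Γ) (c : ι → LineBundle Γ)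
    (m t : ℕ) (b : Fin r → ℕ) (γ : Γ) (v : V) : ℂ :=
  K.e γ v ^ t * (∏ j, (M j).e γ v ^ b j) * (∏ i, (c i).e γ v ^ (t * m))⁻¹

/-- The real class of `K_Y + ∑ δ_j B_j` on the fibres. -/
noncomputable def degR (d : Fin r → ι → ℤ) (δ : Fin r → ℝ) (i : ι) : ℝ :=
  ∑ j, δ j * d j i - 1

/-- The second component of the real class of `K_Y + ∑ δ_j B_j`, where `HK`, `HM j` and `Hc i` are
the Chern forms of `K = O_X(m K_X)`, `M_j` and `c_i`, and `s = 1 / m`. -/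
noncomputable def clsY (HK : V → V → ℂ) (HM : Fin r → V → V → ℂ) (Hc : ι → V → V → ℂ) (s : ℝ)
    (δ : Fin r → ℝ) (v w : V) : ℂ :=
  s * HK v w + ∑ j, δ j * HM j v w - ∑ i, Hc i v w

/-- `K_Y + ∑ δ_j B_j` is a sum, with coefficients `x_k > 0`, of divisors
`a_k (m K_Y) + ∑ b_{k,j} B_j`, `a_k ≥ 1`, `b_{k,j} ≥ 0` integers, which satisfy `Q`. -/
def SumOf (m : ℕ) (δ : Fin r → ℝ) (Q : ℕ → (Fin r → ℕ) → Prop) : Prop :=
  ∃ (κ : Type) (_ : Fintype κ) (x : κ → ℝ) (a : κ → ℕ) (b : κ → Fin r → ℕ), (∀ k, 0 < x k) ∧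
    (∀ k, 1 ≤ a k) ∧ ∑ k, x k * a k = 1 / m ∧ (∀ j, ∑ k, x k * b k j = δ j) ∧ ∀ k, Q (a k) (b k)

end Q47.TR
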