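import Pool.Agent.Q47.TB.Lc
import Pool.Agent.Q47.TR.Stm

/-!
# Real boundaries: from log canonical to inequalities for monomial valuations
-/

set_option autoImplicit false

namespace Q47.TR

open MeasureTheory Filter Topology MvPolynomial Q47.TB

variable {ι : Type*} [Fintype ι]

/-- A log canonical pair satisfies the inequalities for all monomial valuations. -/
theorem weights_of_lc {S : Set (Set ι)} {r : ℕ} {δ : Fin r → ℝ} (hδ : ∀ j, 0 < δ j)
    {f : Fin r → MvPolynomial ι ℂ} (h : IsLogCanonical S δ f) (a : ι → ℕ)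
    (ha : {i | a i ≠ 0} ∈ S) :
    ∃ α : Fin r → (ι →₀ ℕ), (∀ j, α j ∈ (f j).support) ∧
      ∑ j, δ j * ∑ i, (a i : ℝ) * α j i ≤ ∑ i, (a i : ℝ) := by
  classical
  let x : ι → ℂ := fun i => if a i = 0 then 1 else 0
  have hx : {i | x i = 0} ∈ S := by
    have : {i | x i = 0} = {i | a i ≠ 0} := by
      ext i
      simp only [x, Set.mem_ofPred_eq]
      split_ifs with h1 <;> simp [h1]
    rw [this]
    exact ha
  -- the polynomials are not zero
  have hf0 : ∀ j, f j ≠ 0 := by
    intro j hj
    obtain ⟨R, hR, hfin⟩ := h x hx (1 / 2) (by norm_num)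
    have htop : ∀ y : ι → ℂ, ∏ j, ‖eval y (f j)‖ₑ ^ (-(2 * (1 / 2) * δ j)) = ⊤ := by
      intro y
      refine WithTop.prod_eq_top_iff.2 ⟨⟨j, Finset.mem_univ j, ?_⟩, fun l _ => ?_⟩
      · have hexp : -(2 * (1 / 2) * δ j) < 0 := by
          have := hδ j
          linarith
        rw [hj, map_zero, enorm_zero]
        exact ENNReal.zero_rpow_of_neg hexp
      · intro h0
        replace h0 := ENNReal.rpow_eq_zero_iff.1 h0
        have hexp : -(2 * (1 / 2) * δ l) < 0 := by
          have := hδ l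
          linarith
        rcases h0 with ⟨-, h1⟩ | ⟨h1, -⟩
        · linarith
        · exact enorm_ne_top h1
    simp only [htop] at hfin
    rw [lintegral_const, Measure.restrict_apply_univ, ENNReal.top_mul] at hfin
    · exact lt_irrefl _ hfin
    · exact (Metric.measure_ball_pos volume x hR).ne'
  have hmin : ∀ j, ∃ α ∈ (f j).support, ∀ β ∈ (f j).support, ∑ i, a i * α i ≤ ∑ i, a i * β i :=
    fun j => Finset.exists_min_image _ (fun α => ∑ i, a i * α i) (support_nonempty.2 (hf0 j))
  choose α hα hαmin using hmin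
  refine ⟨α, hα, ?_⟩
  by_contra hcon
  push Not at hcon
  set A := ∑ i, a i with hA
  have hAR : ∑ i, (a i : ℝ) = A := by rw [hA]; push_cast; rfl
  let o : Fin r → ℕ := fun j => ∑ i, a i * α j i
  have ho : ∀ j, ∑ i, (a i : ℝ) * α j i = (o j : ℝ) := fun j => by simp only [o]; push_cast; rfl
  simp only [ho, hAR] at hcon
  set T : ℝ := ∑ j, δ j * (o j : ℝ) with hT
  rcases Nat.eq_zero_or_pos A with h0 | hpos
  · have hall : ∀ i, a i = 0 := fun i => Finset.sum_eq_zero_iff.1 (hA ▸ h0) i (Finset.mem_univ i)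
    have : T = 0 := Finset.sum_eq_zero fun j _ => by simp [o, hall]
    rw [this, h0] at hcon
    simp at hcon
  have hA0 : (0 : ℝ) < A := by exact_mod_cast hpos
  have hT0 : 0 < T := hA0.trans hcon
  set c : ℝ := A / T with hc
  have hc1 : c < 1 := (div_lt_one hT0).2 hcon
  have hc0 : 0 < c := div_pos hA0 hT0
  obtain ⟨R, hR, hfin⟩ := h x hx c hc1
  set s : ℝ := min R 1 with hs
  have hs0 : 0 < s := lt_min hR one_pos
  choose C hC hbound using fun j => eval_le (f j) (s := 1 + s) (by linarith) a (B := o j)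
    (fun β hβ => hαmin j β hβ)
  set p : Fin r → ℝ := fun j => 2 * c * δ j with hp
  have hp0 : ∀ j, 0 < p j := fun j => by
    have := hδ j
    positivity
  have hpo : ∑ j, p j * (o j : ℝ) = 2 * A := by
    have : ∑ j, p j * (o j : ℝ) = 2 * c * T := by
      rw [hT, Finset.mul_sum]
      exact Finset.sum_congr rfl fun j _ => by simp only [p]; ring
    rw [this, hc]
    field_simp
  set K : ℝ := ∏ j, C j ^ (-(p j)) with hK
  have hK0 : 0 < K := Finset.prod_pos fun j _ => Real.rpow_pos_of_pos (hC j) _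
  let U : ℝ → Set (ι → ℂ) := fun t => Set.pi Set.univ fun i => Metric.ball (x i) (s * t ^ a i)
  have hUball : ∀ t : ℝ, 0 < t → t ≤ 1 → U t ⊆ Metric.ball x R := by
    intro t ht ht1 y hy
    rw [Metric.mem_ball, dist_pi_lt_iff hR]
    intro i
    have h1 : dist (y i) (x i) < s * t ^ a i := hy i trivial
    have h2 : s * t ^ a i ≤ s * 1 :=
      mul_le_mul_of_nonneg_left (pow_le_one₀ ht.le ht1) hs0.le
    have h3 : s ≤ R := min_le_left _ _
    linarith
  have hprod : ∀ t : ℝ, 0 < t →
      ∏ j, ENNReal.ofReal (C j * t ^ o j) ^ (-(p j)) = ENNReal.ofReal (K * t ^ (-(2 * (A : ℝ)))) := by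
    intro t ht
    have h1 : ∀ j, ENNReal.ofReal (C j * t ^ o j) ^ (-(p j))
        = ENNReal.ofReal (C j ^ (-(p j)) * t ^ (-(p j * o j))) := by
      intro j
      have := hC j
      rw [ENNReal.ofReal_rpow_of_pos (by positivity), Real.mul_rpow (hC j).le (by positivity),
        ← Real.rpow_natCast t (o j), ← Real.rpow_mul ht.le, mul_neg, mul_comm ((o j : ℕ) : ℝ)]
    simp only [h1]
    rw [← ENNReal.ofReal_prod_of_nonneg fun j _ => by
      have := hC j
      positivity]
    congr 1
    rw [Finset.prod_mul_distrib, ← hK, ← Real.rpow_sum_of_pos ht, Finset.sum_neg_distrib, hpo]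
  have hlow : ∀ t : ℝ, 0 < t → t ≤ 1 →
      ENNReal.ofReal (K * (s ^ 2 * Real.pi) ^ Fintype.card ι) ≤
        ∫⁻ y in U t, ∏ j, ‖eval y (f j)‖ₑ ^ (-(p j)) ∂(volume.restrict (Metric.ball x R)) := by
    intro t ht ht1
    rw [Measure.restrict_restrict_of_subset (hUball t ht ht1)]
    have h1 : ∀ y ∈ U t, ∏ j, ENNReal.ofReal (C j * t ^ o j) ^ (-(p j)) ≤
        ∏ j, ‖eval y (f j)‖ₑ ^ (-(p j)) := by
      intro y hy
      refine Finset.prod_le_prod' fun j _ => ?_
      rw [ENNReal.rpow_neg, ENNReal.rpow_neg]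
      refine ENNReal.inv_le_inv.2 (ENNReal.rpow_le_rpow ?_ (hp0 j).le)
      rw [← ofReal_norm]
      apply ENNReal.ofReal_le_ofReal
      apply hbound j t ht.le ht1
      intro i
      have h2 : dist (y i) (x i) < s * t ^ a i := hy i trivial
      by_cases hai : a i = 0
      · have hx1 : x i = 1 := if_pos hai
        rw [hx1, hai, pow_zero, mul_one, dist_eq_norm] at h2
        rw [hai, pow_zero, mul_one]
        have h3 : ‖y i‖ ≤ ‖y i - 1‖ + ‖(1 : ℂ)‖ := by
          simpa using norm_add_le (y i - 1) 1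
        rw [norm_one] at h3
        linarith
      · have hx0 : x i = 0 := if_neg hai
        rw [hx0, dist_zero_right] at h2
        have h3 : 0 ≤ t ^ a i := by positivity
        nlinarith
    have hUm : MeasurableSet (U t) := MeasurableSet.univ_pi fun i => measurableSet_ball
    calc ENNReal.ofReal (K * (s ^ 2 * Real.pi) ^ Fintype.card ι)
        = (∏ j, ENNReal.ofReal (C j * t ^ o j) ^ (-(p j))) * volume (U t) := by
          rw [vol_poly x hs0.le ht.le a, hprod t ht, ← ENNReal.ofReal_mul (by positivity)]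
          congr 1
          rw [← hA, ← Real.rpow_natCast t (2 * A)]
          have h3 : t ^ (-(2 * (A : ℝ))) * t ^ (((2 * A : ℕ) : ℝ)) = 1 := by
            rw [← Real.rpow_add ht]
            push_cast
            rw [neg_add_cancel, Real.rpow_zero]
          calc K * (s ^ 2 * Real.pi) ^ Fintype.card ι
              = K * (s ^ 2 * Real.pi) ^ Fintype.card ι *
                (t ^ (-(2 * (A : ℝ))) * t ^ (((2 * A : ℕ) : ℝ))) := by rw [h3, mul_one]
            _ = _ := by ring
      _ = ∫⁻ _ in U t, ∏ j, ENNReal.ofReal (C j * t ^ o j) ^ (-(p j)) := by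
          rw [lintegral_const, Measure.restrict_apply_univ]
      _ ≤ _ := setLIntegral_mono' hUm h1
  -- the sets shrink
  have ht : Tendsto (fun k : ℕ => (1 / ((k : ℝ) + 1))) atTop (𝓝 0) :=
    tendsto_one_div_add_atTop_nhds_zero_nat
  have hvol : Tendsto ((volume.restrict (Metric.ball x R)) ∘ fun k : ℕ => U (1 / ((k : ℝ) + 1)))
      atTop (𝓝 0) := by
    have h1 : Tendsto (fun k : ℕ => ENNReal.ofReal ((s ^ 2 * Real.pi) ^ Fintype.card ι *
        (1 / ((k : ℝ) + 1)) ^ (2 * A))) atTop (𝓝 0) := by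
      have h2 : Tendsto (fun k : ℕ => (s ^ 2 * Real.pi) ^ Fintype.card ι *
          (1 / ((k : ℝ) + 1)) ^ (2 * A)) atTop (𝓝 ((s ^ 2 * Real.pi) ^ Fintype.card ι *
            0 ^ (2 * A))) := (ht.pow _).const_mul _
      rw [zero_pow (by omega), mul_zero] at h2
      have h3 := ENNReal.tendsto_ofReal h2
      rwa [ENNReal.ofReal_zero] at h3
    refine tendsto_of_tendsto_of_tendsto_of_le_of_le tendsto_const_nhds h1
      (fun k => bot_le) fun k => ?_
    simp only [Function.comp]
    refine (Measure.restrict_apply_le _ _).trans ?_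
    rw [vol_poly x hs0.le (by positivity) a]
  have hlim := tendsto_setLIntegral_zero (μ := volume.restrict (Metric.ball x R))
    (f := fun y => ∏ j, ‖eval y (f j)‖ₑ ^ (-(p j))) hfin.ne hvol
  have hge : ENNReal.ofReal (K * (s ^ 2 * Real.pi) ^ Fintype.card ι) ≤ 0 := by
    refine ge_of_tendsto' hlim fun k => hlow _ (by positivity) ?_
    rw [div_le_one (by positivity)]
    have : (0 : ℝ) ≤ k := Nat.cast_nonneg k
    linarith
  rw [nonpos_iff_eq_zero, ENNReal.ofReal_eq_zero] at hge
  have : 0 < K * (s ^ 2 * Real.pi) ^ Fintype.card ι := by positivity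
  linarith

end Q47.TR
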