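import Pool.Agent.Q47.TB.Hull

/-!
# Real boundaries: the convex hull
-/

set_option autoImplicit false

namespace Q47.TR

open Q47.TB

variable {ι : Type*} [Fintype ι] {n : ℕ}

/-- Separation of a real vector from a sum of polytopes with integral vertices by an integral
vector. -/
theorem exists_sep {r : ℕ} {δ : Fin r → ℝ} (hδ : ∀ j, 0 ≤ δ j) {T : Fin r → Type*} [∀ j, Fintype (T j)]
    (p : (j : Fin r) → T j → Fin n → ℤ) (q : Fin n → ℝ)
    (hq : ¬ ∃ s : (Σ j, T j) → ℝ, (∀ a, 0 ≤ s a) ∧ (∀ j, ∑ α : T j, s ⟨j, α⟩ = δ j) ∧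
      ∀ k, ∑ a, s a * p a.1 a.2 k = q k) :
    ∃ w : Fin n → ℤ, ∀ α : (j : Fin r) → T j,
      ∑ k, (w k : ℝ) * q k < ∑ j, δ j * ∑ k, (w k : ℝ) * p j (α j) k := by
  classical
  set K₀ : Set ((Σ j, T j) → ℝ) := (⋂ a, {s | 0 ≤ s a}) ∩ ⋂ j, {s | ∑ α : T j, s ⟨j, α⟩ = δ j}
    with hK₀
  have hmemK : ∀ s, s ∈ K₀ ↔ (∀ a, 0 ≤ s a) ∧ ∀ j, ∑ α : T j, s ⟨j, α⟩ = δ j := by
    intro s
    simp [hK₀]
  have hcomp : IsCompact K₀ := by
    refine (isCompact_Icc (a := (0 : (Σ j, T j) → ℝ)) (b := fun a => δ a.1)).of_isClosed_subset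
      ?_ ?_
    · refine IsClosed.inter ?_ ?_
      · exact isClosed_iInter fun a => isClosed_le continuous_const (continuous_apply a)
      · exact isClosed_iInter fun j => isClosed_eq
          (continuous_finsetSum _ fun α _ => continuous_apply _) continuous_const
    · intro s hs
      obtain ⟨h1, h2⟩ := (hmemK s).1 hs
      refine ⟨fun a => h1 a, fun a => ?_⟩
      change s a ≤ δ a.1
      rw [← h2 a.1]
      obtain ⟨j, α⟩ := a
      exact Finset.single_le_sum (f := fun α : T j => s ⟨j, α⟩) (fun α _ => h1 _)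
        (Finset.mem_univ α)
  have hconv : Convex ℝ K₀ := by
    intro s hs t ht a b ha hb hab
    obtain ⟨h1, h2⟩ := (hmemK s).1 hs
    obtain ⟨h3, h4⟩ := (hmemK t).1 ht
    refine (hmemK _).2 ⟨fun x => ?_, fun j => ?_⟩
    · have := h1 x
      have := h3 x
      change 0 ≤ a * s x + b * t x
      positivity
    · change ∑ α : T j, (a * s ⟨j, α⟩ + b * t ⟨j, α⟩) = δ j
      rw [Finset.sum_add_distrib, ← Finset.mul_sum, ← Finset.mul_sum, h2, h4, ← add_mul, hab,
        one_mul]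
  let L : ((Σ j, T j) → ℝ) →ₗ[ℝ] (Fin n → ℝ) :=
    { toFun := fun s k => ∑ a, s a * p a.1 a.2 k
      map_add' := fun s t => by
        ext k
        simp only [Pi.add_apply, add_mul, Finset.sum_add_distrib]
      map_smul' := fun c s => by
        ext k
        simp only [Pi.smul_apply, smul_eq_mul, RingHom.id_apply, Finset.mul_sum, mul_assoc] }
  have hL : Continuous L := L.continuous_of_finiteDimensional
  have hcl : IsClosed (L '' K₀) := (hcomp.image hL).isClosed
  have hcv : Convex ℝ (L '' K₀) := hconv.linear_image L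
  have hnot : q ∉ L '' K₀ := by
    rintro ⟨s, hs, h3⟩
    obtain ⟨h1, h2⟩ := (hmemK s).1 hs
    exact hq ⟨s, h1, h2, fun k => congrFun h3 k⟩
  obtain ⟨f, c, hfq, hf⟩ := geometric_hahn_banach_point_closed hcv hcl hnot
  set w : Fin n → ℝ := fun k => f (Pi.single k 1) with hw
  have hfw : ∀ y : Fin n → ℝ, f y = ∑ k, w k * y k := by
    intro y
    conv_lhs => rw [pi_eq_sum_univ' y]
    rw [map_sum]
    refine Finset.sum_congr rfl fun k _ => ?_
    rw [map_smul, smul_eq_mul, mul_comm]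
  have hstrict : ∀ α : (j : Fin r) → T j,
      ∑ k, w k * q k < ∑ j, δ j * ∑ k, w k * p j (α j) k := by
    intro α
    let s : (Σ j, T j) → ℝ := fun a => if a.2 = α a.1 then δ a.1 else 0
    have hs : s ∈ K₀ := by
      refine (hmemK _).2 ⟨fun a => ?_, fun j => ?_⟩
      · change 0 ≤ if a.2 = α a.1 then δ a.1 else 0
        split_ifs
        · exact hδ _
        · exact le_rfl
      · change ∑ β : T j, (if β = α j then δ j else 0) = δ j
        simp
    have h1 := hf _ ⟨s, hs, rfl⟩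
    rw [hfw] at h1 hfq
    refine (hfq.trans h1).trans_le (le_of_eq ?_)
    have h2 : ∀ k, L s k = ∑ j, δ j * (p j (α j) k : ℝ) := by
      intro k
      change ∑ a : Σ j, T j, (if a.2 = α a.1 then δ a.1 else 0) * (p a.1 a.2 k : ℝ) = _
      rw [Fintype.sum_sigma]
      refine Finset.sum_congr rfl fun j _ => ?_
      simp only [ite_mul, zero_mul]
      rw [Finset.sum_ite_eq' Finset.univ (α j)]
      simp
    simp only [h2, Finset.mul_sum]
    rw [Finset.sum_comm]
    exact Finset.sum_congr rfl fun j _ => Finset.sum_congr rfl fun k _ => by ring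
  -- a rational vector
  have hopen : IsOpen {w : Fin n → ℝ | ∀ α : (j : Fin r) → T j,
      ∑ k, w k * q k < ∑ j, δ j * ∑ k, w k * p j (α j) k} := by
    have h0 : {w : Fin n → ℝ | ∀ α : (j : Fin r) → T j,
      ∑ k, w k * q k < ∑ j, δ j * ∑ k, w k * (p j (α j) k : ℝ)} = ⋂ α : (j : Fin r) → T j,
        {w : Fin n → ℝ | ∑ k, w k * q k < ∑ j, δ j * ∑ k, w k * (p j (α j) k : ℝ)} := by
      ext
      simp
    rw [h0]
    refine isOpen_iInter_of_finite fun α => isOpen_lt ?_ ?_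
    · exact continuous_finsetSum _ fun k _ => (continuous_apply k).mul continuous_const
    · exact continuous_finsetSum _ fun j _ => continuous_const.mul
        (continuous_finsetSum _ fun k _ => (continuous_apply k).mul continuous_const)
  obtain ⟨ε, hε, hball⟩ := Metric.isOpen_iff.1 hopen w hstrict
  choose z hz1 hz2 using fun k => exists_rat_btwn (show w k - ε / 2 < w k by linarith)
  have hz := @hball (fun k => (z k : ℝ)) (by
    rw [Metric.mem_ball, dist_pi_lt_iff hε]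
    intro k
    rw [Real.dist_eq, abs_lt]
    constructor
    · linarith [hz1 k]
    · linarith [hz2 k])
  set D : ℕ := ∏ k, (z k).den with hD
  have hD0 : 0 < D := Finset.prod_pos fun k _ => (z k).pos
  have hint : ∀ k, ∃ b : ℤ, (b : ℚ) = D * z k := by
    intro k
    obtain ⟨t, ht⟩ := Finset.dvd_prod_of_mem (fun k => (z k).den) (Finset.mem_univ k)
    refine ⟨t * (z k).num, ?_⟩
    have h1 : (D : ℚ) = (z k).den * t := by
      have : D = (z k).den * t := ht
      rw [this]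
      push_cast
      ring
    rw [h1]
    push_cast
    rw [mul_right_comm, ← Rat.mul_den_eq_num]
    ring
  choose b hb using hint
  have hbR : ∀ k, (b k : ℝ) = D * z k := fun k => by exact_mod_cast hb k
  refine ⟨b, fun α => ?_⟩
  have h1 := hz α
  have hDR : (0 : ℝ) < D := by exact_mod_cast hD0
  have h2 : ∑ k, (b k : ℝ) * q k = D * ∑ k, (z k : ℝ) * q k := by
    rw [Finset.mul_sum]
    exact Finset.sum_congr rfl fun k _ => by rw [hbR]; ring
  have h3 : ∑ j, δ j * ∑ k, (b k : ℝ) * p j (α j) k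
      = D * ∑ j, δ j * ∑ k, (z k : ℝ) * p j (α j) k := by
    simp only [Finset.mul_sum]
    exact Finset.sum_congr rfl fun j _ => Finset.sum_congr rfl fun k _ => by rw [hbR]; ring
  rw [h2, h3]
  exact mul_lt_mul_of_pos_left h1 hDR

/-- The inequalities for monomial valuations give a convex combination. -/
theorem exists_weights {u : ι → Fin n → ℤ} {S : Set (Set ι)} (hS : IsSmoothFan u S) {r : ℕ}
    {δ : Fin r → ℝ} (hδ : ∀ j, 0 ≤ δ j) (T : Fin r → Finset (ι →₀ ℕ)) {d : Fin r → ι → ℤ}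
    (hcls : ∀ j, ∀ α ∈ T j, LinEquiv u (fun i => (α i : ℤ)) (d j))
    (hw : ∀ a : ι → ℕ, {i | a i ≠ 0} ∈ S → ∃ α : Fin r → (ι →₀ ℕ), (∀ j, α j ∈ T j) ∧
      ∑ j, δ j * ∑ i, (a i : ℝ) * α j i ≤ ∑ i, (a i : ℝ))
    {β : ι → ℝ} {q : Fin n → ℝ} (hβ0 : ∀ i, 0 ≤ β i)
    (hβ : ∀ i, β i = (∑ j, δ j * d j i - 1) + ∑ k, q k * u i k) :
    ∃ s : (Σ j, {α // α ∈ T j}) → ℝ, (∀ a, 0 ≤ s a) ∧ (∀ j, ∑ α, s ⟨j, α⟩ = δ j) ∧
      ∀ i, ∑ a, s a * (a.2.1 i : ℝ) = 1 + β i := by
  classical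
  choose p hp using hcls
  by_cases h : ∃ s : (Σ j, {α // α ∈ T j}) → ℝ, (∀ a, 0 ≤ s a) ∧
      (∀ j, ∑ α, s ⟨j, α⟩ = δ j) ∧ ∀ k, ∑ a, s a * (p a.1 a.2.1 a.2.2 k : ℝ) = q k
  · obtain ⟨s, h1, h2, h3⟩ := h
    refine ⟨s, h1, h2, fun i => ?_⟩
    have h4 : ∀ a : Σ j, {α // α ∈ T j}, (a.2.1 i : ℝ)
        = d a.1 i + ∑ k, (p a.1 a.2.1 a.2.2 k : ℝ) * u i k := fun a => by
      have := hp a.1 a.2.1 a.2.2 i
      exact_mod_cast this
    simp only [h4, mul_add, Finset.sum_add_distrib]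
    have h5 : ∑ a : Σ j, {α // α ∈ T j}, s a * (d a.1 i : ℝ) = ∑ j, δ j * d j i := by
      rw [Fintype.sum_sigma]
      refine Finset.sum_congr rfl fun j _ => ?_
      rw [← h2 j, Finset.sum_mul]
    have h6 : ∑ a : Σ j, {α // α ∈ T j}, s a * ∑ k, (p a.1 a.2.1 a.2.2 k : ℝ) * u i k
        = ∑ k, q k * u i k := by
      simp only [← h3, Finset.mul_sum, Finset.sum_mul]
      rw [Finset.sum_comm]
      exact Finset.sum_congr rfl fun k _ => Finset.sum_congr rfl fun a _ => by ring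
    rw [h5, h6, hβ i]
    ring
  · exfalso
    obtain ⟨w, hw'⟩ := exists_sep hδ (T := fun j => {α // α ∈ T j})
      (fun j α => p j α.1 α.2) q h
    obtain ⟨a, ⟨haS, ha⟩, -⟩ := hS.rep w
    obtain ⟨α, hα, hle⟩ := hw a haS
    have h1 := hw' fun j => ⟨α j, hα j⟩
    have haR : ∀ k, ∑ i, (a i : ℝ) * (u i k : ℝ) = w k := fun k => by exact_mod_cast ha k
    have hex : ∀ y : Fin n → ℝ, ∑ i, (a i : ℝ) * ∑ k, y k * (u i k : ℝ)
        = ∑ k, (w k : ℝ) * y k := by
      intro y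
      simp only [← haR, Finset.mul_sum, Finset.sum_mul]
      rw [Finset.sum_comm]
      exact Finset.sum_congr rfl fun k _ => Finset.sum_congr rfl fun i _ => by ring
    have h2 : ∀ j, ∑ i, (a i : ℝ) * (α j i : ℝ) = ∑ i, (a i : ℝ) * d j i
        + ∑ k, (w k : ℝ) * p j (α j) (hα j) k := by
      intro j
      rw [← hex, ← Finset.sum_add_distrib]
      refine Finset.sum_congr rfl fun i _ => ?_
      have := hp j (α j) (hα j) i
      have h3 : (α j i : ℝ) = d j i + ∑ k, (p j (α j) (hα j) k : ℝ) * u i k := by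
        exact_mod_cast this
      rw [h3]
      ring
    simp only [h2, mul_add, Finset.sum_add_distrib] at hle
    have h4 : ∑ j, δ j * ∑ i, (a i : ℝ) * d j i = ∑ i, (a i : ℝ) * ∑ j, δ j * d j i := by
      simp only [Finset.mul_sum]
      rw [Finset.sum_comm]
      exact Finset.sum_congr rfl fun i _ => Finset.sum_congr rfl fun j _ => by ring
    have h5 : ∑ i, (a i : ℝ) * β i = ∑ i, (a i : ℝ) * ∑ j, δ j * d j i - ∑ i, (a i : ℝ)
        + ∑ k, (w k : ℝ) * q k := by
      rw [← hex, ← Finset.sum_sub_distrib, ← Finset.sum_add_distrib]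
      exact Finset.sum_congr rfl fun i _ => by rw [hβ i]; ring
    have h6 : 0 ≤ ∑ i, (a i : ℝ) * β i :=
      Finset.sum_nonneg fun i _ => mul_nonneg (Nat.cast_nonneg _) (hβ0 i)
    linarith

end Q47.TR
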