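import Pool.Agent.Q47.TR.Dec
import Pool.Agent.Q47.TR.Hull
import Pool.Agent.Q47.TB.Psef3

/-!
# Real boundaries: the line bundles of an integral boundary with integral weights
-/

set_option autoImplicit false

namespace Q47.TR

open Pool.Agent.W594.SYZ2 Pool.Agent.W594.SYZ2.TQ Pool.Agent.TH735.AQ MvPolynomial Q47.EB Q47.KN
open Q47.TB
open Q47.MM (adj cls chern_adj nef_of_section Inv inv_of_chern roots exists_tests Refls nef_of_roots)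

variable {V : Type*} [NormedAddCommGroup V] [NormedSpace ℂ V]
  {Γ : Subgroup (V ≃ᵃ[ℂ] V)} {ι : Type*} [Fintype ι] {n r : ℕ}

/-- The line bundle `O_Y(t m K_Y + ∑ b_j B_j)`, where `K = O_X(m K_X)` and `B_j` is the divisor of a
section of `O_Y(d_j; M_j)`, is `O_Y(∑ b_j d_j - t m (1, ..., 1); K^t ⊗ ∏ M_j^{b_j} ⊗ ∏ c_i^{-t m})`;
this is its second component. -/
noncomputable def adjY (K : LineBundle Γ) (M : Fin r → LineBundle Γ) (c : ι → LineBundle Γ)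
    (m t : ℕ) (b : Fin r → ℕ) : LineBundle Γ :=
  tw (adj K M t b) c 1 fun _ => t * m

theorem pair_weights {u : ι → Fin n → ℤ} {K : LineBundle Γ} {m : ℕ} {ρ : V → ℂ}
    (hK : Pool.Agent.TH735.AQ.IsLogPluricanonical K m ρ fun _ => 1)
    {M : Fin r → LineBundle Γ} {c : ι → LineBundle Γ} {d : Fin r → ι → ℤ}
    {F : Fin r → V → MvPolynomial ι ℂ} (hF : ∀ j, IsSection u c (d j) (M j).e (F j))
    (T : Fin r → Finset (ι →₀ ℕ)) (w : (Σ j, {α // α ∈ T j}) → ℕ) {t : ℕ} {b : Fin r → ℕ}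
    (hwb : ∀ j, ∑ α, w ⟨j, α⟩ = b j) {β : ι → ℕ}
    (hβ : ∀ i, β i + t * m = m * ∑ a, w a * a.2.1 i) :
    Pool.Agent.TH735.AQ.IsLogPluricanonical (tw (adjY K M c m t fun j => m * b j) c 1 β) (m * t) ρ
      fun v => ∏ a, (coeff a.2.1 (F a.1 v)) ^ (m * w a) := by
  classical
  intro γ v
  have hf : ∀ a : Σ j, {α // α ∈ T j}, coeff a.2.1 (F a.1 ((γ : V ≃ᵃ[ℂ] V) v)) *
      ∏ i, (c i).e γ v ^ a.2.1 i = (M a.1).e γ v * coeff a.2.1 (F a.1 v) := by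
    intro a
    have h1 := coeff_of_eval (t := fun i => (c i).e γ v) (p := F a.1 ((γ : V ≃ᵃ[ℂ] V) v))
      (q := F a.1 v) (a := 1) (b := (M a.1).e γ v)
      (fun x => by rw [mul_one]; exact (hF a.1).eq γ v x) a.2.1
    rwa [mul_one] at h1
  have hk := hK γ v
  simp only [one_mul, mul_one] at hk
  have e1 : (∏ a : Σ j, {α // α ∈ T j}, (coeff a.2.1 (F a.1 ((γ : V ≃ᵃ[ℂ] V) v))) ^ (m * w a)) *
      ∏ i, (c i).e γ v ^ (m * ∑ a : Σ j, {α // α ∈ T j}, w a * a.2.1 i)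
      = (∏ j, (M j).e γ v ^ (m * b j)) *
        ∏ a : Σ j, {α // α ∈ T j}, (coeff a.2.1 (F a.1 v)) ^ (m * w a) := by
    have h1 : ∏ i, (c i).e γ v ^ (m * ∑ a : Σ j, {α // α ∈ T j}, w a * a.2.1 i)
        = ∏ a : Σ j, {α // α ∈ T j}, (∏ i, (c i).e γ v ^ a.2.1 i) ^ (m * w a) := by
      simp only [← Finset.prod_pow, ← pow_mul]
      rw [Finset.prod_comm]
      refine Finset.prod_congr rfl fun i _ => ?_
      rw [Finset.prod_pow_eq_pow_sum, Finset.mul_sum]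
      congr 1
      exact Finset.sum_congr rfl fun a _ => by ring
    have h2 : ∏ j, (M j).e γ v ^ (m * b j)
        = ∏ a : Σ j, {α // α ∈ T j}, (M a.1).e γ v ^ (m * w a) := by
      rw [Fintype.prod_sigma]
      refine Finset.prod_congr rfl fun j _ => ?_
      change _ = ∏ y, (M j).e γ v ^ (m * w ⟨j, y⟩)
      rw [Finset.prod_pow_eq_pow_sum, ← Finset.mul_sum, hwb]
    rw [h1, h2, ← Finset.prod_mul_distrib, ← Finset.prod_mul_distrib]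
    exact Finset.prod_congr rfl fun a _ => by rw [← mul_pow, ← mul_pow, hf]
  have e2 : ∏ i, (c i).e γ v ^ (m * ∑ a : Σ j, {α // α ∈ T j}, w a * a.2.1 i)
      = (∏ i, (c i).e γ v ^ β i) * ∏ i, (c i).e γ v ^ (t * m) := by
    rw [← Finset.prod_mul_distrib]
    exact Finset.prod_congr rfl fun i _ => by rw [← pow_add, hβ]
  have n1 : (∏ i, (c i).e γ v ^ β i) ≠ 0 :=
    Finset.prod_ne_zero_iff.2 fun i _ => pow_ne_zero _ ((c i).ne_zero γ v)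
  have n2 : (∏ i, (c i).e γ v ^ (t * m)) ≠ 0 :=
    Finset.prod_ne_zero_iff.2 fun i _ => pow_ne_zero _ ((c i).ne_zero γ v)
  have e3 : ρ v ^ (m * t) = K.e γ v ^ t *
      LinearMap.det ((γ : V ≃ᵃ[ℂ] V).linear : V →ₗ[ℂ] V) ^ (m * t) *
        ρ ((γ : V ≃ᵃ[ℂ] V) v) ^ (m * t) := by
    rw [pow_mul, hk]
    simp only [mul_pow, ← pow_mul]
  change _ = (((K.e γ v ^ t * ∏ j, (M j).e γ v ^ (m * b j)) ^ 1 *
    (∏ i, (c i).e γ v ^ (1 * (t * m)))⁻¹) ^ 1 * (∏ i, (c i).e γ v ^ (1 * β i))⁻¹) * _ * _ * _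
  simp only [one_mul, pow_one]
  rw [e2] at e1
  rw [e3]
  field_simp
  linear_combination (K.e γ v ^ t * LinearMap.det ((γ : V ≃ᵃ[ℂ] V).linear : V →ₗ[ℂ] V) ^ (m * t) *
        ρ ((γ : V ≃ᵃ[ℂ] V) v) ^ (m * t)) * e1

omit [Fintype ι] in
theorem linEquiv_weights {u : ι → Fin n → ℤ} {d : Fin r → ι → ℤ} {m : ℕ}
    (T : Fin r → Finset (ι →₀ ℕ)) (hcls : ∀ j, ∀ α ∈ T j, LinEquiv u (fun i => (α i : ℤ)) (d j))
    (w : (Σ j, {α // α ∈ T j}) → ℕ) {t : ℕ} {b : Fin r → ℕ}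
    (hwb : ∀ j, ∑ α, w ⟨j, α⟩ = b j) {β : ι → ℕ}
    (hβ : ∀ i, β i + t * m = m * ∑ a, w a * a.2.1 i) :
    LinEquiv u (fun i => (β i : ℤ)) fun i => ∑ j, ((m * b j : ℕ) : ℤ) * d j i - ((t * m : ℕ) : ℤ) := by
  choose p hp using hcls
  refine ⟨fun k => m * ∑ a, (w a : ℤ) * p a.1 a.2.1 a.2.2 k, fun i => ?_⟩
  have h1 : (β i : ℤ) + t * m = m * ∑ a, (w a : ℤ) * (a.2.1 i : ℤ) := by exact_mod_cast hβ i
  have h2 : ∀ a : Σ j, {α // α ∈ T j}, (a.2.1 i : ℤ)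
      = d a.1 i + ∑ k, p a.1 a.2.1 a.2.2 k * u i k := fun a => hp a.1 a.2.1 a.2.2 i
  simp only [h2, mul_add, Finset.sum_add_distrib] at h1
  have h3 : ∑ a : Σ j, {α // α ∈ T j}, (w a : ℤ) * d a.1 i = ∑ j, (b j : ℤ) * d j i := by
    rw [Fintype.sum_sigma]
    refine Finset.sum_congr rfl fun j _ => ?_
    rw [← hwb j]
    push_cast
    rw [Finset.sum_mul]
  have h4 : ∑ a : Σ j, {α // α ∈ T j}, (w a : ℤ) * ∑ k, p a.1 a.2.1 a.2.2 k * u i k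
      = ∑ k, (∑ a : Σ j, {α // α ∈ T j}, (w a : ℤ) * p a.1 a.2.1 a.2.2 k) * u i k := by
    simp only [Finset.mul_sum, Finset.sum_mul]
    rw [Finset.sum_comm]
    exact Finset.sum_congr rfl fun k _ => Finset.sum_congr rfl fun a _ => by ring
  rw [h3, h4] at h1
  have h5 : ∑ j, ((m * b j : ℕ) : ℤ) * d j i = m * ∑ j, (b j : ℤ) * d j i := by
    rw [Finset.mul_sum]
    exact Finset.sum_congr rfl fun j _ => by push_cast; ring
  have h6 : ∑ k, ((m : ℤ) * ∑ a : Σ j, {α // α ∈ T j}, (w a : ℤ) * p a.1 a.2.1 a.2.2 k) * u i k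
      = m * ∑ k, (∑ a : Σ j, {α // α ∈ T j}, (w a : ℤ) * p a.1 a.2.1 a.2.2 k) * u i k := by
    rw [Finset.mul_sum]
    exact Finset.sum_congr rfl fun k _ => by ring
  simp only [h5, h6]
  push_cast
  linarith

/-- The Chern form on the base. -/
theorem chern_weights {K : LineBundle Γ} {m : ℕ} {M : Fin r → LineBundle Γ}
    {c : ι → LineBundle Γ} {HK : V → V → ℂ} {HM : Fin r → V → V → ℂ} {Hc : ι → V → V → ℂ}
    (hHK : IsChernForm K HK) (hHM : ∀ j, IsChernForm (M j) (HM j))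
    (hc : ∀ i, IsChernForm (c i) (Hc i))
    (T : Fin r → Finset (ι →₀ ℕ)) (w : (Σ j, {α // α ∈ T j}) → ℕ) {t : ℕ} {b : Fin r → ℕ}
    (hwb : ∀ j, ∑ α, w ⟨j, α⟩ = b j) {β : ι → ℕ}
    (hβ : ∀ i, β i + t * m = m * ∑ a, w a * a.2.1 i) :
    IsChernForm (tw (adjY K M c m t fun j => m * b j) c 1 β) fun x y => (t : ℂ) * HK x y +
      m * ∑ a, (w a : ℂ) * (HM a.1 x y - ∑ i, (a.2.1 i : ℂ) * Hc i x y) := by
  have h1 := chern_tw (chern_tw (chern_adj hHK hHM t fun j => m * b j) hc 1 fun _ => t * m) hc 1 β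
  have h0 : ∀ x y, (t : ℂ) * HK x y +
      m * ∑ a, (w a : ℂ) * (HM a.1 x y - ∑ i, (a.2.1 i : ℂ) * Hc i x y)
      = ((1 : ℕ) : ℂ) * (((1 : ℕ) : ℂ) * (cls HK HM t (fun j => ((m * b j : ℕ) : ℝ)) x y
        - ∑ i, ((t * m : ℕ) : ℂ) * Hc i x y) - ∑ i, (β i : ℂ) * Hc i x y) := ?_
  · simp only [h0]
    exact h1
  intro x y
  simp only [cls, Nat.cast_one, one_mul]
  have h2 : ∑ a : Σ j, {α // α ∈ T j}, (w a : ℂ) * HM a.1 x y = ∑ j, (b j : ℂ) * HM j x y := by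
    rw [Fintype.sum_sigma]
    refine Finset.sum_congr rfl fun j _ => ?_
    rw [← hwb j]
    push_cast
    rw [Finset.sum_mul]
  have h3 : m * ∑ a : Σ j, {α // α ∈ T j}, (w a : ℂ) * ∑ i, (a.2.1 i : ℂ) * Hc i x y
      = ∑ i, ((β i : ℂ) + (t * m : ℕ)) * Hc i x y := by
    have h4 : ∀ i, ((β i : ℂ) + (t * m : ℕ)) = m * ∑ a : Σ j, {α // α ∈ T j},
        (w a : ℂ) * (a.2.1 i : ℂ) := fun i => by exact_mod_cast hβ i
    simp only [h4, Finset.mul_sum, Finset.sum_mul]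
    rw [Finset.sum_comm]
    exact Finset.sum_congr rfl fun k _ => Finset.sum_congr rfl fun a _ => by ring
  simp only [mul_sub, Finset.sum_sub_distrib]
  rw [h3, h2]
  simp only [add_mul, Finset.sum_add_distrib]
  push_cast
  rw [Finset.mul_sum]
  have h5 : ∑ j, (m : ℂ) * ((b j : ℂ) * HM j x y) = ∑ j, ((m : ℂ) * b j) * HM j x y :=
    Finset.sum_congr rfl fun j _ => by ring
  rw [h5]
  ring

end Q47.TR
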