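import Pool.Agent.Q47.TR.Lin

/-!
# Real boundaries: decomposition into integral ones
-/

set_option autoImplicit false

namespace Q47.TR

variable {ι : Type*} [Fintype ι]

/-- A real boundary with real weights is a positive combination of integral ones with integral
weights which satisfy the same integral linear conditions. -/
theorem decomp_bdry {r : ℕ} (T : Fin r → Finset (ι →₀ ℕ)) {P : Type*} [Fintype P]
    (σ : P → Set ι) {G : Type*} [Finite G] (eK : G → ℤ)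
    (e : G → (Σ j, {α // α ∈ T j}) → ℤ) {δ : Fin r → ℝ} (hδ : ∀ j, 0 ≤ δ j)
    {s : P → (Σ j, {α // α ∈ T j}) → ℝ} (hs0 : ∀ τ a, 0 ≤ s τ a)
    (hs : ∀ τ j, ∑ α, s τ ⟨j, α⟩ = δ j)
    (hβ : ∀ τ i, 1 ≤ ∑ a, s τ a * (a.2.1 i : ℝ))
    (hβσ : ∀ τ, ∀ i ∈ σ τ, ∑ a, s τ a * (a.2.1 i : ℝ) = 1)
    (he : ∀ τ g, 0 ≤ eK g + ∑ a, s τ a * (e g a : ℝ)) :
    ∃ (κ : Type) (_ : Fintype κ) (c : κ → ℝ) (t : κ → ℕ) (b : κ → Fin r → ℕ)
      (w : κ → P → (Σ j, {α // α ∈ T j}) → ℕ), (∀ k, 0 < c k) ∧ (∀ k, 1 ≤ t k) ∧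
      ∑ k, c k * t k = 1 ∧ (∀ j, ∑ k, c k * b k j = δ j) ∧ ∀ k τ,
        (∀ j, ∑ α, w k τ ⟨j, α⟩ = b k j) ∧ (∀ i, t k ≤ ∑ a, w k τ a * a.2.1 i) ∧
        (∀ i ∈ σ τ, ∑ a, w k τ a * a.2.1 i = t k) ∧
        ∀ g, 0 ≤ t k * eK g + ∑ a, (w k τ a : ℤ) * e g a := by
  classical
  let A := Σ j, {α // α ∈ T j}
  let I := Unit ⊕ (Fin r ⊕ (P × A))
  let x : I → ℝ := Sum.elim (fun _ => 1) (Sum.elim δ fun y => s y.1 y.2)
  let tt : (I → ℝ) → ℝ := fun y => y (Sum.inl ())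
  let dd : Fin r → (I → ℝ) → ℝ := fun j y => y (Sum.inr (Sum.inl j))
  let ss : P → A → (I → ℝ) → ℝ := fun τ a y => y (Sum.inr (Sum.inr (τ, a)))
  have htt : IntForm tt := IntForm.coord _
  have hdd : ∀ j, IntForm (dd j) := fun j => IntForm.coord _
  have hss : ∀ τ a, IntForm (ss τ a) := fun τ a => IntForm.coord _
  let f1 : P → Fin r → (I → ℝ) → ℝ := fun τ j y => ∑ α, ss τ ⟨j, α⟩ y
  have hf1 : ∀ τ j, IntForm (f1 τ j) := fun τ j => IntForm.sum _ fun α => hss τ _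
  let f2 : P → ι → (I → ℝ) → ℝ := fun τ i y => ∑ a : A, ss τ a y * ((a.2.1 i : ℤ) : ℝ)
  have hf2 : ∀ τ i, IntForm (f2 τ i) := fun τ i => IntForm.sum _ fun a => (hss τ a).mul _
  let f3 : P → G → (I → ℝ) → ℝ := fun τ g y =>
    tt y * (eK g : ℝ) + ∑ a : A, ss τ a y * (e g a : ℝ)
  have hf3 : ∀ τ g, IntForm (f3 τ g) := fun τ g =>
    (htt.mul _).add (IntForm.sum _ fun a => (hss τ a).mul _)
  let J := Unit ⊕ (Fin r ⊕ ((P × A) ⊕ ((P × Fin r) ⊕ ((P × Fin r) ⊕ ((P × ι) ⊕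
    ((Σ τ : P, {i // i ∈ σ τ}) ⊕ (P × G)))))))
  let f : J → (I → ℝ) → ℝ := Sum.elim (fun _ => tt) (Sum.elim dd (Sum.elim (fun y => ss y.1 y.2)
    (Sum.elim (fun y z => f1 y.1 y.2 z - dd y.2 z) (Sum.elim (fun y z => dd y.2 z - f1 y.1 y.2 z)
      (Sum.elim (fun y z => f2 y.1 y.2 z - tt z) (Sum.elim (fun y z => tt z - f2 y.1 y.2.1 z)
        fun y => f3 y.1 y.2))))))
  have hf : ∀ j, IntForm (f j) := by
    rintro (j | j | j | j | j | j | j | j)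
    · exact htt
    · exact hdd j
    · exact hss _ _
    · exact (hf1 _ _).sub (hdd _)
    · exact (hdd _).sub (hf1 _ _)
    · exact (hf2 _ _).sub htt
    · exact htt.sub (hf2 _ _)
    · exact hf3 _ _
  have hx : ∀ j, 0 ≤ f j x := by
    rintro (j | j | j | j | j | j | j | j)
    · exact zero_le_one
    · exact hδ j
    · exact hs0 _ _
    · exact le_of_eq (sub_eq_zero.2 (hs j.1 j.2)).symm
    · exact le_of_eq (sub_eq_zero.2 (hs j.1 j.2).symm).symm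
    · have h1 := hβ j.1 j.2
      change 0 ≤ ∑ a : A, s j.1 a * ((a.2.1 j.2 : ℤ) : ℝ) - 1
      simp only [Int.cast_natCast]
      linarith
    · have h1 := hβσ j.1 j.2.1 j.2.2
      change 0 ≤ 1 - ∑ a : A, s j.1 a * ((a.2.1 j.2.1 : ℤ) : ℝ)
      simp only [Int.cast_natCast]
      linarith
    · have h1 := he j.1 j.2
      change 0 ≤ 1 * (eK j.2 : ℝ) + ∑ a : A, s j.1 a * (e j.2 a : ℝ)
      linarith
  have : Finite J := inferInstance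
  obtain ⟨κ, hκ, c, b, hc, hsum, hb⟩ := decomp f hf x hx
  have ht : ∀ k, 0 < b k (Sum.inl ()) := by
    intro k
    have h1 := (hb k (Sum.inl ())).2 zero_lt_one
    change 0 < ((b k (Sum.inl ()) : ℤ) : ℝ) at h1
    exact_mod_cast h1
  have hd : ∀ k j, 0 ≤ b k (Sum.inr (Sum.inl j)) := by
    intro k j
    have h1 := (hb k (Sum.inr (Sum.inl j))).1
    change 0 ≤ ((b k (Sum.inr (Sum.inl j)) : ℤ) : ℝ) at h1
    exact_mod_cast h1
  have hw : ∀ k τ a, 0 ≤ b k (Sum.inr (Sum.inr (τ, a))) := by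
    intro k τ a
    have h1 := (hb k (Sum.inr (Sum.inr (Sum.inl (τ, a))))).1
    change 0 ≤ ((b k (Sum.inr (Sum.inr (τ, a))) : ℤ) : ℝ) at h1
    exact_mod_cast h1
  have et : ∀ k, (((b k (Sum.inl ())).toNat : ℕ) : ℤ) = b k (Sum.inl ()) := fun k =>
    Int.toNat_of_nonneg (ht k).le
  have ed : ∀ k j, (((b k (Sum.inr (Sum.inl j))).toNat : ℕ) : ℤ) = b k (Sum.inr (Sum.inl j)) :=
    fun k j => Int.toNat_of_nonneg (hd k j)
  have ew : ∀ k τ a, (((b k (Sum.inr (Sum.inr (τ, a)))).toNat : ℕ) : ℤ)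
      = b k (Sum.inr (Sum.inr (τ, a))) := fun k τ a => Int.toNat_of_nonneg (hw k τ a)
  have etR : ∀ k, (((b k (Sum.inl ())).toNat : ℕ) : ℝ) = (b k (Sum.inl ()) : ℝ) := fun k => by
    exact_mod_cast et k
  have edR : ∀ k j, (((b k (Sum.inr (Sum.inl j))).toNat : ℕ) : ℝ)
      = (b k (Sum.inr (Sum.inl j)) : ℝ) := fun k j => by exact_mod_cast ed k j
  refine ⟨κ, hκ, c, fun k => (b k (Sum.inl ())).toNat, fun k j => (b k (Sum.inr (Sum.inl j))).toNat,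
    fun k τ a => (b k (Sum.inr (Sum.inr (τ, a)))).toNat, hc, fun k => ?_, ?_, fun j => ?_,
    fun k τ => ⟨fun j => ?_, fun i => ?_, fun i hi => ?_, fun g => ?_⟩⟩
  · have h1 := ht k
    change 1 ≤ (b k (Sum.inl ())).toNat
    omega
  · simp only [etR]
    exact hsum (Sum.inl ())
  · simp only [edR]
    exact hsum (Sum.inr (Sum.inl j))
  · have h1 := (hb k (Sum.inr (Sum.inr (Sum.inr (Sum.inl (τ, j)))))).1
    have h2 := (hb k (Sum.inr (Sum.inr (Sum.inr (Sum.inr (Sum.inl (τ, j))))))).1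
    change 0 ≤ ∑ α, ((b k (Sum.inr (Sum.inr (τ, ⟨j, α⟩))) : ℤ) : ℝ)
      - ((b k (Sum.inr (Sum.inl j)) : ℤ) : ℝ) at h1
    change 0 ≤ ((b k (Sum.inr (Sum.inl j)) : ℤ) : ℝ)
      - ∑ α, ((b k (Sum.inr (Sum.inr (τ, ⟨j, α⟩))) : ℤ) : ℝ) at h2
    have h3 : ∑ α, ((b k (Sum.inr (Sum.inr (τ, (⟨j, α⟩ : A)))) : ℤ) : ℝ)
        = ((b k (Sum.inr (Sum.inl j)) : ℤ) : ℝ) := by linarith
    have h4 : ∑ α, b k (Sum.inr (Sum.inr (τ, (⟨j, α⟩ : A)))) = b k (Sum.inr (Sum.inl j)) := by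
      exact_mod_cast h3
    zify
    rw [ed]
    simp only [ew]
    exact h4
  · have h1 := (hb k (Sum.inr (Sum.inr (Sum.inr (Sum.inr (Sum.inr (Sum.inl (τ, i)))))))).1
    change 0 ≤ ∑ a : A, ((b k (Sum.inr (Sum.inr (τ, a))) : ℤ) : ℝ) * ((a.2.1 i : ℤ) : ℝ)
      - ((b k (Sum.inl ()) : ℤ) : ℝ) at h1
    have h2 : 0 ≤ ∑ a : A, b k (Sum.inr (Sum.inr (τ, a))) * (a.2.1 i : ℤ) - b k (Sum.inl ()) := by
      exact_mod_cast h1
    zify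
    rw [et]
    simp only [ew]
    linarith
  · have h0 := (hb k (Sum.inr (Sum.inr (Sum.inr (Sum.inr (Sum.inr (Sum.inl (τ, i)))))))).1
    have h1 := (hb k (Sum.inr (Sum.inr (Sum.inr (Sum.inr (Sum.inr (Sum.inr (Sum.inl
      ⟨τ, ⟨i, hi⟩⟩)))))))).1
    change 0 ≤ ∑ a : A, ((b k (Sum.inr (Sum.inr (τ, a))) : ℤ) : ℝ) * ((a.2.1 i : ℤ) : ℝ)
      - ((b k (Sum.inl ()) : ℤ) : ℝ) at h0
    change 0 ≤ ((b k (Sum.inl ()) : ℤ) : ℝ)
      - ∑ a : A, ((b k (Sum.inr (Sum.inr (τ, a))) : ℤ) : ℝ) * ((a.2.1 i : ℤ) : ℝ) at h1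
    have h2 : ∑ a : A, ((b k (Sum.inr (Sum.inr (τ, a))) : ℤ) : ℝ) * ((a.2.1 i : ℤ) : ℝ)
        = ((b k (Sum.inl ()) : ℤ) : ℝ) := by linarith
    have h3 : ∑ a : A, b k (Sum.inr (Sum.inr (τ, a))) * (a.2.1 i : ℤ) = b k (Sum.inl ()) := by
      exact_mod_cast h2
    zify
    rw [et]
    simp only [ew]
    exact h3
  · have h1 := (hb k (Sum.inr (Sum.inr (Sum.inr (Sum.inr (Sum.inr (Sum.inr (Sum.inr
      (τ, g)))))))) ).1
    change 0 ≤ ((b k (Sum.inl ()) : ℤ) : ℝ) * (eK g : ℝ)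
      + ∑ a : A, ((b k (Sum.inr (Sum.inr (τ, a))) : ℤ) : ℝ) * (e g a : ℝ) at h1
    have h2 : 0 ≤ b k (Sum.inl ()) * eK g + ∑ a : A, b k (Sum.inr (Sum.inr (τ, a))) * e g a := by
      exact_mod_cast h1
    rw [et]
    simp only [ew]
    exact h2

end Q47.TR
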