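import Pool.Agent.Q47.TR.Main

/-!
# Real boundaries on toric bundles over torus quotients: nonvanishing and abundance
-/

set_option autoImplicit false

namespace Q47.TR

open Pool.Agent.W594.SYZ2 Pool.Agent.W594.SYZ2.TQ Pool.Agent.TH735.AQ MvPolynomial Q47.EB Q47.KN
open Q47.TB
open Q47.MM (adj cls chern_adj nef_of_section Inv inv_of_chern roots exists_tests Refls nef_of_roots)

variable {V : Type*} [NormedAddCommGroup V] [NormedSpace ℂ V]
  {Γ : Subgroup (V ≃ᵃ[ℂ] V)} {ι : Type*} [Fintype ι] {n r : ℕ}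

/-- Numerically effective classes: sums of classes of effective divisors, with coefficients
`≥ 0`. -/
def IsNumEff (u : ι → Fin n → ℤ) (c : ι → LineBundle Γ) (δ : ι → ℝ) (H : V → V → ℂ) : Prop :=
  ∃ (κ : Type) (_ : Fintype κ) (x : κ → ℝ) (d : κ → ι → ℤ) (M : κ → LineBundle Γ)
    (HM : κ → V → V → ℂ) (q : Fin n → ℝ),
    (∀ k, 0 ≤ x k) ∧ (∀ k, IsChernForm (M k) (HM k)) ∧
    (∀ k, ∃ G, IsSection u c (d k) (M k).e G ∧ ∃ v, G v ≠ 0) ∧
    (∀ i, δ i = ∑ k, x k * d k i + ∑ l, q l * u i l) ∧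
    ∀ v w, H v w = ∑ k, x k * HM k v w

theorem adjY_e (K : LineBundle Γ) (M : Fin r → LineBundle Γ) (c : ι → LineBundle Γ)
    (m t : ℕ) (b : Fin r → ℕ) : (adjY K M c m t b).e = facY K M c m t b := by
  ext γ v
  change (K.e γ v ^ t * ∏ j, (M j).e γ v ^ b j) ^ 1 * (∏ i, (c i).e γ v ^ (1 * (t * m)))⁻¹ = _
  simp only [facY, pow_one, one_mul]

theorem adjY_pow (K : LineBundle Γ) (M : Fin r → LineBundle Γ) (c : ι → LineBundle Γ)
    (m t E : ℕ) (b : Fin r → ℕ) (γ : Γ) (v : V) :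
    (adjY K M c m (E * t) fun j => E * b j).e γ v = (adjY K M c m t b).e γ v ^ E := by
  change (K.e γ v ^ (E * t) * ∏ j, (M j).e γ v ^ (E * b j)) ^ 1 *
      (∏ i, (c i).e γ v ^ (1 * (E * t * m)))⁻¹
    = ((K.e γ v ^ t * ∏ j, (M j).e γ v ^ b j) ^ 1 * (∏ i, (c i).e γ v ^ (1 * (t * m)))⁻¹) ^ E
  simp only [pow_one, one_mul, mul_pow, inv_pow, ← Finset.prod_pow, ← pow_mul]
  congr 1
  · congr 1
    · rw [mul_comm]
    · exact Finset.prod_congr rfl fun j _ => by rw [mul_comm]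
  · congr 1
    exact Finset.prod_congr rfl fun i _ => by
      congr 1
      ring

omit [Fintype ι] in
theorem degY_mul (d : Fin r → ι → ℤ) (m t E : ℕ) (b : Fin r → ℕ) (i : ι) :
    degY d m (E * t) (fun j => E * b j) i = E * degY d m t b i := by
  simp only [degY, mul_sub, Finset.mul_sum]
  push_cast
  congr 1
  · exact Finset.sum_congr rfl fun j _ => by ring
  · ring

theorem SumOf.scale {m : ℕ} {δ : Fin r → ℝ} {Q Q' : ℕ → (Fin r → ℕ) → Prop} (h : SumOf m δ Q)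
    (hQ : ∀ a b, 1 ≤ a → Q a b → ∃ E : ℕ, 1 ≤ E ∧ Q' (E * a) fun j => E * b j) :
    SumOf m δ Q' := by
  obtain ⟨κ, hκ, x, a, b, hx, ha, hxa, hxb, hQk⟩ := h
  choose E hE hQ' using fun k => hQ (a k) (b k) (ha k) (hQk k)
  have hE0 : ∀ k, (0 : ℝ) < E k := fun k => by exact_mod_cast hE k
  refine ⟨κ, hκ, fun k => x k / E k, fun k => E k * a k, fun k j => E k * b k j,
    fun k => div_pos (hx k) (hE0 k), fun k => Nat.mul_pos (hE k) (ha k), ?_, fun j => ?_, hQ'⟩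
  · rw [← hxa]
    refine Finset.sum_congr rfl fun k _ => ?_
    have := (hE0 k).ne'
    push_cast
    field_simp
  · rw [← hxb j]
    refine Finset.sum_congr rfl fun k _ => ?_
    have := (hE0 k).ne'
    push_cast
    field_simp

/-- The Chern form of the line bundle `adjY`. -/
theorem chern_adjY {K : LineBundle Γ} {HK : V → V → ℂ} (hHK : IsChernForm K HK)
    {c : ι → LineBundle Γ} {Hc : ι → V → V → ℂ} (hc : ∀ i, IsChernForm (c i) (Hc i))
    {M : Fin r → LineBundle Γ} {HM : Fin r → V → V → ℂ} (hHM : ∀ j, IsChernForm (M j) (HM j))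
    (m t : ℕ) (b : Fin r → ℕ) :
    IsChernForm (adjY K M c m t b) fun v w => (t : ℂ) * HK v w + ∑ j, (b j : ℂ) * HM j v w
      - (t * m : ℂ) * ∑ i, Hc i v w := by
  have h1 := chern_tw (chern_adj hHK hHM t b) hc 1 fun _ => t * m
  have h0 : ∀ v w, (t : ℂ) * HK v w + ∑ j, (b j : ℂ) * HM j v w - (t * m : ℂ) * ∑ i, Hc i v w
      = ((1 : ℕ) : ℂ) * (cls HK HM t (fun j => (b j : ℝ)) v w
        - ∑ i, ((t * m : ℕ) : ℂ) * Hc i v w) := by
    intro v w
    simp only [cls, Nat.cast_one, one_mul, Finset.mul_sum]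
    push_cast
    ring
  simp only [h0]
  exact h1

omit [NormedAddCommGroup V] [NormedSpace ℂ V] in
theorem sum_clsY {HK : V → V → ℂ} {Hc : ι → V → V → ℂ} {HM : Fin r → V → V → ℂ} {m : ℕ}
    (hm : 1 ≤ m) {δ : Fin r → ℝ} {κ : Type} [Fintype κ] {x : κ → ℝ} {a : κ → ℕ}
    {b : κ → Fin r → ℕ} (hxa : ∑ k, x k * a k = 1 / m) (hxb : ∀ j, ∑ k, x k * b k j = δ j)
    (v w : V) : clsY HK HM Hc (1 / m) δ v w = ∑ k, (x k : ℂ) * ((a k : ℂ) * HK v w
      + ∑ j, (b k j : ℂ) * HM j v w - (a k * m : ℂ) * ∑ i, Hc i v w) := by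
  have hm0 : (m : ℂ) ≠ 0 := by
    have : m ≠ 0 := by omega
    exact_mod_cast this
  have h1 : ∑ k, (x k : ℂ) * a k = 1 / m := by
    have h0 := congrArg (fun y : ℝ => (y : ℂ)) hxa
    push_cast at h0
    exact h0
  have h2 : ∀ j, ∑ k, (x k : ℂ) * b k j = δ j := fun j => by
    have h0 := congrArg (fun y : ℝ => (y : ℂ)) (hxb j)
    push_cast at h0
    exact h0
  simp only [clsY, cls]
  have e1 : ∀ k, (x k : ℂ) * ((a k : ℂ) * HK v w + ∑ j, (b k j : ℂ) * HM j v w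
      - (a k * m : ℂ) * ∑ i, Hc i v w) = (x k * a k) * HK v w
      + ∑ j, ((x k : ℂ) * b k j) * HM j v w - (x k * a k) * (m * ∑ i, Hc i v w) := by
    intro k
    rw [mul_sub, mul_add, Finset.mul_sum]
    have : ∀ j, (x k : ℂ) * ((b k j : ℂ) * HM j v w) = (x k * b k j) * HM j v w := fun j => by ring
    simp only [this]
    ring
  simp only [e1, Finset.sum_sub_distrib, Finset.sum_add_distrib, ← Finset.sum_mul]
  rw [Finset.sum_comm]
  simp only [← Finset.sum_mul, h1, h2]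
  push_cast
  field_simp

omit [Fintype ι] in
theorem sum_degY {d : Fin r → ι → ℤ} {m : ℕ}
    (hm : 1 ≤ m) {δ : Fin r → ℝ} {κ : Type} [Fintype κ] {x : κ → ℝ} {a : κ → ℕ}
    {b : κ → Fin r → ℕ} (hxa : ∑ k, x k * a k = 1 / m) (hxb : ∀ j, ∑ k, x k * b k j = δ j)
    (i : ι) : degR d δ i = ∑ k, x k * (degY d m (a k) (b k) i : ℝ) := by
  have hm0 : (m : ℝ) ≠ 0 := by
    have : m ≠ 0 := by omega
    exact_mod_cast this
  simp only [degR, degY]
  push_cast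
  simp only [mul_sub, Finset.sum_sub_distrib, Finset.mul_sum]
  rw [Finset.sum_comm]
  congr 1
  · refine Finset.sum_congr rfl fun j _ => ?_
    rw [← hxb j, Finset.sum_mul]
    exact Finset.sum_congr rfl fun k _ => by ring
  · have h1 : ∑ k, x k * ((a k : ℝ) * m) = (∑ k, x k * a k) * m := by
      rw [Finset.sum_mul]
      exact Finset.sum_congr rfl fun k _ => by ring
    rw [h1, hxa]
    field_simp

/-- Sums of effective divisors are numerically effective. -/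
theorem numEff_of_sum {K : LineBundle Γ} {HK : V → V → ℂ} (hHK : IsChernForm K HK)
    {u : ι → Fin n → ℤ} {c : ι → LineBundle Γ} {Hc : ι → V → V → ℂ}
    (hc : ∀ i, IsChernForm (c i) (Hc i))
    {M : Fin r → LineBundle Γ} {HM : Fin r → V → V → ℂ} (hHM : ∀ j, IsChernForm (M j) (HM j))
    {d : Fin r → ι → ℤ} {m : ℕ} (hm : 1 ≤ m) {δ : Fin r → ℝ}
    (h : SumOf m δ fun a b => ∃ G, IsSection u c (degY d m a b) (facY K M c m a b) G ∧
      ∃ v, G v ≠ 0) : IsNumEff u c (degR d δ) (clsY HK HM Hc (1 / m) δ) := by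
  obtain ⟨κ, hκ, x, a, b, hx, ha, hxa, hxb, hQ⟩ := h
  refine ⟨κ, hκ, x, fun k => degY d m (a k) (b k), fun k => adjY K M c m (a k) (b k),
    fun k v w => (a k : ℂ) * HK v w + ∑ j, (b k j : ℂ) * HM j v w
      - (a k * m : ℂ) * ∑ i, Hc i v w, fun _ => 0, fun k => (hx k).le,
    fun k => chern_adjY hHK hc hHM m (a k) (b k), fun k => by
      rw [adjY_e]
      exact hQ k, fun i => ?_, fun v w => ?_⟩
  · simp only [zero_mul, Finset.sum_const_zero, add_zero]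
    exact sum_degY hm hxa hxb i
  · exact sum_clsY hm hxa hxb v w

omit [Fintype ι] in
theorem pseff_of_numEff {u : ι → Fin n → ℤ} {c : ι → LineBundle Γ} {δ : ι → ℝ} {H : V → V → ℂ}
    (h : IsNumEff u c δ H) : IsPseff u c δ H := by
  refine ⟨fun _ => δ, fun _ => H, fun _ => ?_, fun _ => tendsto_const_nhds,
    fun _ _ => tendsto_const_nhds⟩
  obtain ⟨κ, hκ, x, d, M, HM, q, h1, h2, h3, h4, h5⟩ := h
  exact ⟨κ, hκ, x, d, M, HM, fun _ _ => 0, q, h1, h2, h3, fun v => le_of_eq (by simp), h4,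
    fun v w => by
      change H v w = _ + 0
      rw [add_zero]
      exact h5 v w⟩

/-- From a generated power of a line bundle on the base to a section. -/
theorem eff_of_gg {K : LineBundle Γ} {M : Fin r → LineBundle Γ} {u : ι → Fin n → ℤ}
    {c : ι → LineBundle Γ} {d : Fin r → ι → ℤ} {m a : ℕ} {b : Fin r → ℕ} {β : ι → ℕ} {E : ℕ}
    (hβ : LinEquiv u (fun i => (β i : ℤ)) (degY d m a b))
    (hg : GG ((tw (adjY K M c m a b) c 1 β).pow E)) :
    ∃ G, IsSection u c (degY d m (E * a) fun j => E * b j)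
      (facY K M c m (E * a) fun j => E * b j) G ∧ ∃ v, G v ≠ 0 := by
  obtain ⟨s, hs, hs0⟩ := hg 0
  have h4 := isSection_monomial hβ hs
  have e1 : (degY d m (E * a) fun j => E * b j) = fun i => ((1 * E : ℕ) : ℤ) * degY d m a b i := by
    ext i
    rw [degY_mul, one_mul]
  have e2 : (facY K M c m (E * a) fun j => E * b j)
      = fun (γ : Γ) v => (adjY K M c m a b).e γ v ^ (1 * E) := by
    rw [← adjY_e]
    ext γ v
    rw [adjY_pow, one_mul]
  refine ⟨_, (?_ : IsSection u c _ _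
    fun v => monomial (Finsupp.equivFunOnFinite.symm fun i => 1 * E * β i) (s v)), 0, ?_⟩
  · rw [e1, e2]
    exact h4
  · exact fun h => hs0 (monomial_eq_zero.1 h)

variable [FiniteDimensional ℂ V]

/-- Nonvanishing for real boundaries. -/
theorem nonvanishing (hΓ : IsTorusQuotient Γ) {ρ : V → ℂ}
    (hρ : IsRamification Γ ρ) {K : LineBundle Γ} {m : ℕ} (hm : 1 ≤ m)
    (hK : Pool.Agent.TH735.AQ.IsLogPluricanonical K m ρ fun _ => 1) {HK : V → V → ℂ}
    (hHK : IsChernForm K HK) {u : ι → Fin n → ℤ} {S : Set (Set ι)} (hS : IsSmoothFan u S)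
    {c : ι → LineBundle Γ} {Hc : ι → V → V → ℂ} (hc : ∀ i, IsChernForm (c i) (Hc i))
    {M : Fin r → LineBundle Γ} {HM : Fin r → V → V → ℂ} (hHM : ∀ j, IsChernForm (M j) (HM j))
    {d : Fin r → ι → ℤ} {F : Fin r → V → MvPolynomial ι ℂ}
    (hF : ∀ j, IsSection u c (d j) (M j).e (F j)) {δ : Fin r → ℝ} (hδ : ∀ j, 0 < δ j) {v₀ : V}
    (hlc : IsLogCanonical S δ fun j => F j v₀) {β : ι → ℝ} {q : Fin n → ℝ} (hβ0 : ∀ i, 0 ≤ β i)
    (hβ : ∀ i, β i = degR d δ i + ∑ k, q k * u i k)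
    (hn : (∀ v, ¬ OnMirror Γ v) ∨ ∀ a ∈ roots Γ,
        0 ≤ (clsY HK HM Hc (1 / m) δ a a - ∑ i, (β i : ℂ) * Hc i a a).re) :
    SumOf m δ fun a b => ∃ G, IsSection u c (degY d m a b) (facY K M c m a b) G ∧
      ∃ v, G v ≠ 0 := by
  obtain ⟨κ, hκ, x, a, b, h1, h2, h3, h4, h5⟩ := main hΓ hρ hm hK hHK hS hc hHM hF hδ hlc
    (P := Unit) (fun _ => ∅) fun _ => ⟨β, q, hβ0, fun i hi => absurd hi (Set.notMem_empty i), hβ, hn⟩
  refine SumOf.scale (Q := fun a b => ∃ β : ι → ℕ, LinEquiv u (fun i => (β i : ℤ)) (degY d m a b) ∧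
    GG ((tw (adjY K M c m a b) c 1 β).pow (expo (Module.finrank ℂ V))))
    ⟨κ, hκ, x, a, b, h1, h2, h3, h4, fun k => ?_⟩ fun a b _ hQ => ?_
  · obtain ⟨β, -, h6, h7⟩ := h5 k ()
    exact ⟨β, h6, h7⟩
  · obtain ⟨β, h6, h7⟩ := hQ
    exact ⟨_, expo_pos _, eff_of_gg h6 h7⟩

/-- Abundance for real boundaries. -/
theorem semiample (hΓ : IsTorusQuotient Γ) {ρ : V → ℂ}
    (hρ : IsRamification Γ ρ) {K : LineBundle Γ} {m : ℕ} (hm : 1 ≤ m)
    (hK : Pool.Agent.TH735.AQ.IsLogPluricanonical K m ρ fun _ => 1) {HK : V → V → ℂ}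
    (hHK : IsChernForm K HK) {u : ι → Fin n → ℤ} {S : Set (Set ι)} (hS : IsSmoothFan u S)
    {c : ι → LineBundle Γ} {Hc : ι → V → V → ℂ} (hc : ∀ i, IsChernForm (c i) (Hc i))
    {M : Fin r → LineBundle Γ} {HM : Fin r → V → V → ℂ} (hHM : ∀ j, IsChernForm (M j) (HM j))
    {d : Fin r → ι → ℤ} {F : Fin r → V → MvPolynomial ι ℂ}
    (hF : ∀ j, IsSection u c (d j) (M j).e (F j)) {δ : Fin r → ℝ} (hδ : ∀ j, 0 < δ j) {v₀ : V}
    (hlc : IsLogCanonical S δ fun j => F j v₀)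
    (hn : ∀ σ ∈ S, ∃ (β : ι → ℝ) (q : Fin n → ℝ), (∀ i, 0 ≤ β i) ∧ (∀ i ∈ σ, β i = 0) ∧
      (∀ i, β i = degR d δ i + ∑ k, q k * u i k) ∧
      ((∀ v, ¬ OnMirror Γ v) ∨ ∀ a ∈ roots Γ,
        0 ≤ (clsY HK HM Hc (1 / m) δ a a - ∑ i, (β i : ℂ) * Hc i a a).re)) :
    SumOf m δ fun a b => ∀ (v : V) (x : ι → ℂ), {i | x i = 0} ∈ S →
      ∃ G, IsSection u c (degY d m a b) (facY K M c m a b) G ∧ eval x (G v) ≠ 0 := by
  classical
  have hfin : Fintype S := Fintype.ofFinite S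
  obtain ⟨κ, hκ, x, a, b, h1, h2, h3, h4, h5⟩ := main hΓ hρ hm hK hHK hS hc hHM hF hδ hlc
    (P := S) (fun σ => σ.1) fun σ => hn σ.1 σ.2
  refine SumOf.scale (Q := fun a b => ∀ σ ∈ S, ∃ β : ι → ℕ, (∀ i ∈ σ, β i = 0) ∧
    LinEquiv u (fun i => (β i : ℤ)) (degY d m a b) ∧
    GG ((tw (adjY K M c m a b) c 1 β).pow (expo (Module.finrank ℂ V))))
    ⟨κ, hκ, x, a, b, h1, h2, h3, h4, fun k σ hσ => h5 k ⟨σ, hσ⟩⟩ fun a b _ hQ => ?_
  obtain ⟨N, hN, h6⟩ := semiample_of_gg (expo_pos (Module.finrank ℂ V))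
    (fun σ hσ => by
      obtain ⟨β, h6, h7, h8⟩ := hQ σ hσ
      exact ⟨β, h6, h7, 1, le_rfl, h8⟩)
  refine ⟨N, hN, fun v x hx => ?_⟩
  obtain ⟨G, hG, hG0⟩ := h6 v x hx
  refine ⟨G, ?_, hG0⟩
  have e1 : (degY d m (N * a) fun j => N * b j) = fun i => (N : ℤ) * degY d m a b i :=
    funext fun i => degY_mul d m a N b i
  have e2 : (facY K M c m (N * a) fun j => N * b j)
      = fun (γ : Γ) v => (adjY K M c m a b).e γ v ^ N := by
    rw [← adjY_e]
    ext γ v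
    rw [adjY_pow]
  rw [e1, e2]
  exact hG

/-- Semiample divisors are nef. -/
theorem nef_of_semiample (hΓ : IsTorusQuotient Γ) {K : LineBundle Γ} {m : ℕ} (hm : 1 ≤ m)
    {HK : V → V → ℂ} (hHK : IsChernForm K HK) {u : ι → Fin n → ℤ} {S : Set (Set ι)}
    {c : ι → LineBundle Γ} {Hc : ι → V → V → ℂ} (hc : ∀ i, IsChernForm (c i) (Hc i))
    {M : Fin r → LineBundle Γ} {HM : Fin r → V → V → ℂ} (hHM : ∀ j, IsChernForm (M j) (HM j))
    {d : Fin r → ι → ℤ} {δ : Fin r → ℝ}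
    (h : SumOf m δ fun a b => ∀ (v : V) (x : ι → ℂ), {i | x i = 0} ∈ S →
      ∃ G, IsSection u c (degY d m a b) (facY K M c m a b) G ∧ eval x (G v) ≠ 0) :
    ∀ σ ∈ S, ∃ (β : ι → ℝ) (q : Fin n → ℝ), (∀ i, 0 ≤ β i) ∧ (∀ i ∈ σ, β i = 0) ∧
      (∀ i, β i = degR d δ i + ∑ k, q k * u i k) ∧
      IsNefForm fun v w => clsY HK HM Hc (1 / m) δ v w - ∑ i, (β i : ℂ) * Hc i v w := by
  classical
  intro σ hσ
  obtain ⟨κ, hκ, x, a, b, hx, ha, hxa, hxb, hQ⟩ := h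
  have key : ∀ k, ∃ α : ι → ℕ, (∀ i ∈ σ, α i = 0) ∧
      LinEquiv u (fun i => (α i : ℤ)) (degY d m (a k) (b k)) ∧
      IsNefForm fun v w => ((a k : ℂ) * HK v w + ∑ j, (b k j : ℂ) * HM j v w
      - (a k * m : ℂ) * ∑ i, Hc i v w) - ∑ i, (α i : ℂ) * Hc i v w := by
    intro k
    have hpt : {i | (fun i => if i ∈ σ then (0 : ℂ) else 1) i = 0} = σ := by
      ext i
      by_cases hi : i ∈ σ <;> simp [hi]
    obtain ⟨G, hG, hG0⟩ := hQ k 0 (fun i => if i ∈ σ then 0 else 1) (by rw [hpt]; exact hσ)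
    rw [← adjY_e] at hG
    rw [eval_eq'] at hG0
    obtain ⟨α, hα, hα0⟩ := Finset.exists_ne_zero_of_sum_ne_zero hG0
    refine ⟨fun i => α i, fun i hi => ?_, hG.deg 0 α hα, ?_⟩
    · by_contra hne
      refine hα0 (mul_eq_zero_of_right _ (Finset.prod_eq_zero (Finset.mem_univ i) ?_))
      rw [if_pos hi]
      exact zero_pow hne
    · have h1 := nef_of_section hΓ (chern_tw (chern_adjY hHK hc hHM m (a k) (b k)) hc 1
        fun i => α i) (coeff_section hG α) ⟨0, mem_support_iff.1 hα⟩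
      intro w
      have h2 := h1 w
      simpa using h2
  choose α hα0 hα hnef using key
  choose p hp using hα
  refine ⟨fun i => ∑ k, x k * α k i, fun l => ∑ k, x k * p k l, fun i => ?_, fun i hi => ?_,
    fun i => ?_, fun v => ?_⟩
  · exact Finset.sum_nonneg fun k _ => mul_nonneg (hx k).le (Nat.cast_nonneg _)
  · exact Finset.sum_eq_zero fun k _ => by rw [hα0 k i hi, Nat.cast_zero, mul_zero]
  · have h1 : ∀ k, (α k i : ℝ) = degY d m (a k) (b k) i + ∑ l, (p k l : ℝ) * u i l := fun k => by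
      exact_mod_cast hp k i
    simp only [h1, mul_add, Finset.sum_add_distrib]
    rw [sum_degY hm hxa hxb i]
    congr 1
    simp only [Finset.mul_sum, Finset.sum_mul]
    rw [Finset.sum_comm]
    exact Finset.sum_congr rfl fun l _ => Finset.sum_congr rfl fun k _ => by ring
  · have h1 : clsY HK HM Hc (1 / m) δ v v - ∑ i, ((∑ k, x k * α k i : ℝ) : ℂ) * Hc i v v
        = ∑ k, (x k : ℂ) * (((a k : ℂ) * HK v v + ∑ j, (b k j : ℂ) * HM j v v
      - (a k * m : ℂ) * ∑ i, Hc i v v) - ∑ i, (α k i : ℂ) * Hc i v v) := by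
      have e0 : ∑ i, ((∑ k, x k * α k i : ℝ) : ℂ) * Hc i v v
          = ∑ k, (x k : ℂ) * ∑ i, (α k i : ℂ) * Hc i v v := by
        push_cast
        simp only [Finset.mul_sum, Finset.sum_mul]
        rw [Finset.sum_comm]
        exact Finset.sum_congr rfl fun l _ => Finset.sum_congr rfl fun k _ => by ring
      rw [sum_clsY hm hxa hxb v v, e0, ← Finset.sum_sub_distrib]
      exact Finset.sum_congr rfl fun k _ => by ring
    change 0 ≤ (clsY HK HM Hc (1 / m) δ v v - ∑ i, ((∑ k, x k * α k i : ℝ) : ℂ) * Hc i v v).re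
    rw [h1, Complex.re_sum]
    refine Finset.sum_nonneg fun k _ => ?_
    rw [Complex.re_ofReal_mul]
    exact mul_nonneg (hx k).le (hnef k v)

end Q47.TR
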