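import Pool.Agent.Q47.MM.Cone

/-!
# Integral linear forms, and real solutions of integral linear inequalities
-/

set_option autoImplicit false

namespace Q47.TR

variable {I : Type*} [Fintype I]

/-- Linear forms with integral coefficients. -/
def IntForm (f : (I → ℝ) → ℝ) : Prop :=
  ∃ n : I → ℤ, ∀ x, f x = ∑ i, (n i : ℝ) * x i

theorem IntForm.coord (i : I) : IntForm fun x : I → ℝ => x i := by
  classical
  refine ⟨fun j => if j = i then 1 else 0, fun x => ?_⟩
  simp

theorem IntForm.zero : IntForm fun _ : I → ℝ => (0 : ℝ) :=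
  ⟨fun _ => 0, fun x => by simp⟩

theorem IntForm.add {f g : (I → ℝ) → ℝ} (hf : IntForm f) (hg : IntForm g) :
    IntForm fun x => f x + g x := by
  obtain ⟨n, hn⟩ := hf
  obtain ⟨m, hm⟩ := hg
  refine ⟨fun i => n i + m i, fun x => ?_⟩
  beta_reduce
  rw [hn, hm, ← Finset.sum_add_distrib]
  refine Finset.sum_congr rfl fun i _ => ?_
  push_cast
  ring

theorem IntForm.mul {f : (I → ℝ) → ℝ} (hf : IntForm f) (z : ℤ) :
    IntForm fun x => f x * z := by
  obtain ⟨n, hn⟩ := hf
  refine ⟨fun i => n i * z, fun x => ?_⟩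
  beta_reduce
  rw [hn, Finset.sum_mul]
  refine Finset.sum_congr rfl fun i _ => ?_
  push_cast
  ring

theorem IntForm.sub {f g : (I → ℝ) → ℝ} (hf : IntForm f) (hg : IntForm g) :
    IntForm fun x => f x - g x := by
  obtain ⟨n, hn⟩ := hf
  obtain ⟨m, hm⟩ := hg
  refine ⟨fun i => n i - m i, fun x => ?_⟩
  beta_reduce
  rw [hn, hm, ← Finset.sum_sub_distrib]
  refine Finset.sum_congr rfl fun i _ => ?_
  push_cast
  ring

theorem IntForm.sum {A : Type*} (s : Finset A) {f : A → (I → ℝ) → ℝ} (hf : ∀ a, IntForm (f a)) :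
    IntForm fun x => ∑ a ∈ s, f a x := by
  classical
  induction s using Finset.induction_on with
  | empty => simpa using IntForm.zero
  | insert a s ha ih =>
    simp only [Finset.sum_insert ha]
    exact (hf a).add ih

/-- Real solutions of integral linear inequalities are positive combinations of integral
solutions. -/
theorem decomp {J : Type*} [Finite J] (f : J → (I → ℝ) → ℝ) (hf : ∀ j, IntForm (f j)) (x : I → ℝ)
    (hx : ∀ j, 0 ≤ f j x) :
    ∃ (κ : Type) (_ : Fintype κ) (c : κ → ℝ) (b : κ → I → ℤ), (∀ k, 0 < c k) ∧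
      (∀ i, ∑ k, c k * b k i = x i) ∧ ∀ k j, 0 ≤ f j (fun i => (b k i : ℝ)) ∧
        (0 < f j x → 0 < f j fun i => (b k i : ℝ)) := by
  choose n hn using hf
  let e := Fintype.equivFin I
  have he : ∀ (j : J) (y : I → ℝ),
      ∑ i : Fin (Fintype.card I), (n j (e.symm i) : ℝ) * y (e.symm i) = f j y := by
    intro j y
    rw [hn]
    exact Equiv.sum_comp e.symm fun i => (n j i : ℝ) * y i
  obtain ⟨κ, hκ, c, b, hc, hsum, hb⟩ := Q47.MM.cone_decomp
    (fun j i => n j (e.symm i)) (fun i => x (e.symm i)) (fun j => by rw [he]; exact hx j)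
  refine ⟨κ, hκ, c, fun k i => b k (e i), hc, fun i => ?_, fun k j => ?_⟩
  · have h1 := hsum (e i)
    rwa [e.symm_apply_apply] at h1
  · obtain ⟨h1, h2⟩ := hb k j
    have h3 : ((∑ i, n j (e.symm i) * b k i : ℤ) : ℝ) = f j fun i => (b k (e i) : ℝ) := by
      rw [← he]
      push_cast
      exact Finset.sum_congr rfl fun i _ => by rw [e.apply_symm_apply]
    rw [he] at h2
    refine ⟨by rw [← h3]; exact_mod_cast h1, fun h => ?_⟩
    rw [← h3]
    exact_mod_cast h2 h

end Q47.TR
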