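import Pool.Agent.Q47.TR.Bdry
import Pool.Agent.Q47.TR.Lc

/-!
# Real boundaries on toric bundles over torus quotients: the decomposition
-/

set_option autoImplicit false

namespace Q47.TR

open Pool.Agent.W594.SYZ2 Pool.Agent.W594.SYZ2.TQ Pool.Agent.TH735.AQ MvPolynomial Q47.EB Q47.KN
open Q47.TB
open Q47.MM (adj cls chern_adj nef_of_section Inv inv_of_chern roots exists_tests Refls nef_of_roots)

variable {V : Type*} [NormedAddCommGroup V] [NormedSpace ℂ V]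
  {Γ : Subgroup (V ≃ᵃ[ℂ] V)} {ι : Type*} [Fintype ι] {n r : ℕ}

theorem nef_of_pair' [FiniteDimensional ℂ V] (hΓ : IsTorusQuotient Γ) {ρ : V → ℂ}
    (hρ : Differentiable ℂ ρ) (hρ0 : ∀ v, ρ v ≠ 0) {L : LineBundle Γ} {H : V → V → ℂ}
    (hL : IsChernForm L H) {m : ℕ} {P : V → ℂ} (hP : Differentiable ℂ P) (hP0 : ∃ v, P v ≠ 0)
    (hPe : Pool.Agent.TH735.AQ.IsLogPluricanonical L m ρ P) : IsNefForm H := by
  have := finite_Lin hΓ
  have hs := section_of_pair hΓ hρ hρ0 hP hPe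
  obtain ⟨v₀, hv₀⟩ := hP0
  have hn := nef_of_section hΓ (chern_pow hL _) hs
    ⟨v₀, pow_ne_zero _ (mul_ne_zero hv₀ (inv_ne_zero (pow_ne_zero _ (hρ0 v₀))))⟩
  intro v
  have h1 := hn v
  have e2 : ((Nat.card (Lin Γ) : ℕ) : ℂ) = ((Nat.card (Lin Γ) : ℝ) : ℂ) := by push_cast; rfl
  rw [e2, Complex.re_ofReal_mul] at h1
  have h3 : (0 : ℝ) < Nat.card (Lin Γ) := by exact_mod_cast Nat.card_pos
  exact nonneg_of_mul_nonneg_right h1 h3

omit [Fintype ι] in
/-- The product of powers of functions which do not vanish identically. -/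
theorem prod_coeff_ne [FiniteDimensional ℂ V] {F : Fin r → V → MvPolynomial ι ℂ}
    (hF : ∀ j α, Differentiable ℂ fun v => coeff α (F j v))
    (T : Fin r → Finset (ι →₀ ℕ)) (hT : ∀ j, ∀ α ∈ T j, ∃ v, coeff α (F j v) ≠ 0)
    (k : (Σ j, {α // α ∈ T j}) → ℕ) :
    (Differentiable ℂ fun v => ∏ a : Σ j, {α // α ∈ T j}, coeff a.2.1 (F a.1 v) ^ k a) ∧
      ∃ v, ∏ a : Σ j, {α // α ∈ T j}, coeff a.2.1 (F a.1 v) ^ k a ≠ 0 := by
  classical
  refine ⟨prod_diff _ _ fun a => (hF _ _).pow _, ?_⟩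
  obtain ⟨v, hv⟩ := exists_common_prod Finset.univ
    (fun (a : Σ j, {α // α ∈ T j}) v => coeff a.2.1 (F a.1 v)) (fun a _ => hF _ _)
    (fun a _ => hT a.1 a.2.1 a.2.2)
  exact ⟨v, Finset.prod_ne_zero_iff.2 fun a ha =>
    pow_ne_zero _ (Finset.prod_ne_zero_iff.1 hv a ha)⟩

theorem main [FiniteDimensional ℂ V] (hΓ : IsTorusQuotient Γ) {ρ : V → ℂ}
    (hρ : IsRamification Γ ρ) {K : LineBundle Γ} {m : ℕ} (hm : 1 ≤ m)
    (hK : Pool.Agent.TH735.AQ.IsLogPluricanonical K m ρ fun _ => 1) {HK : V → V → ℂ}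
    (hHK : IsChernForm K HK) {u : ι → Fin n → ℤ} {S : Set (Set ι)} (hS : IsSmoothFan u S)
    {c : ι → LineBundle Γ} {Hc : ι → V → V → ℂ} (hc : ∀ i, IsChernForm (c i) (Hc i))
    {M : Fin r → LineBundle Γ} {HM : Fin r → V → V → ℂ} (hHM : ∀ j, IsChernForm (M j) (HM j))
    {d : Fin r → ι → ℤ} {F : Fin r → V → MvPolynomial ι ℂ}
    (hF : ∀ j, IsSection u c (d j) (M j).e (F j)) {δ : Fin r → ℝ} (hδ : ∀ j, 0 < δ j) {v₀ : V}
    (hlc : IsLogCanonical S δ fun j => F j v₀) {P : Type*} [Fintype P] (σ : P → Set ι)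
    (h : ∀ τ, ∃ (β : ι → ℝ) (q : Fin n → ℝ), (∀ i, 0 ≤ β i) ∧ (∀ i ∈ σ τ, β i = 0) ∧
      (∀ i, β i = (∑ j, δ j * d j i - 1) + ∑ k, q k * u i k) ∧
      ((∀ v, ¬ OnMirror Γ v) ∨ ∀ a ∈ roots Γ,
        0 ≤ (clsY HK HM Hc (1 / m) δ a a - ∑ i, (β i : ℂ) * Hc i a a).re)) :
    ∃ (κ : Type) (_ : Fintype κ) (x : κ → ℝ) (t : κ → ℕ) (b : κ → Fin r → ℕ),
      (∀ k, 0 < x k) ∧ (∀ k, 1 ≤ t k) ∧ ∑ k, x k * t k = 1 / m ∧ (∀ j, ∑ k, x k * b k j = δ j) ∧
      ∀ k τ, ∃ β : ι → ℕ, (∀ i ∈ σ τ, β i = 0) ∧ LinEquiv u (fun i => (β i : ℤ))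
        (fun i => ∑ j, (b k j : ℤ) * d j i - ((t k * m : ℕ) : ℤ)) ∧
        GG ((tw (adjY K M c m (t k) (b k)) c 1 β).pow (expo (Module.finrank ℂ V))) := by
  classical
  have := finite_Lin hΓ
  set T : Fin r → Finset (ι →₀ ℕ) := fun j => (F j v₀).support with hTdef
  have hcls : ∀ j, ∀ α ∈ T j, LinEquiv u (fun i => (α i : ℤ)) (d j) :=
    fun j α hα => (hF j).deg v₀ α hα
  have hT : ∀ j, ∀ α ∈ T j, ∃ v, coeff α (F j v) ≠ 0 :=
    fun j α hα => ⟨v₀, mem_support_iff.1 hα⟩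
  choose β q hβ0 hβσ hβ hpos using h
  choose s hs0 hs hsβ using fun τ => exists_weights hS (fun j => (hδ j).le) T hcls
    (weights_of_lc hδ hlc) (hβ0 τ) (hβ τ)
  -- the tests
  obtain ⟨x, y, hx, hy, ht⟩ := exists_tests hΓ
  have hint : ∀ {L : LineBundle Γ} {H : V → V → ℂ}, IsChernForm L H → ∀ g : Refls Γ,
      ∃ t : ℤ, (H (x g) (y g)).im = t := by
    intro L H hc g
    obtain ⟨hH, F, hF, hFe⟩ := hc
    exact im_int hH ⟨hF, hFe⟩ (hx g) (hy g)
  choose tK htK using hint hHK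
  choose tM htM using fun j => hint (hHM j)
  choose tc htc using fun i => hint (hc i)
  let HH : ℝ → ((Σ j, {α // α ∈ T j}) → ℝ) → V → V → ℂ := fun t s v w => (t : ℂ) * HK v w +
    m * ∑ a, (s a : ℂ) * (HM a.1 v w - ∑ i, (a.2.1 i : ℂ) * Hc i v w)
  have hHH : ∀ t s, IsHermitian (HH t s) := by
    intro t s
    refine ⟨fun u v w => ?_, fun a v w => ?_, fun v w => ?_⟩
    · simp only [HH, hHK.1.add_left, (hHM _).1.add_left, (hc _).1.add_left, mul_add,
        Finset.sum_add_distrib, mul_sub, Finset.sum_sub_distrib]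
      ring
    · simp only [HH, hHK.1.smul_left, (hHM _).1.smul_left, (hc _).1.smul_left]
      have h1 : ∀ b : Σ j, {α // α ∈ T j}, (s b : ℂ) * (a * HM b.1 v w
          - ∑ i, (b.2.1 i : ℂ) * (a * Hc i v w))
          = a * ((s b : ℂ) * (HM b.1 v w - ∑ i, (b.2.1 i : ℂ) * Hc i v w)) := by
        intro b
        have h2 : ∑ i, (b.2.1 i : ℂ) * (a * Hc i v w) = a * ∑ i, (b.2.1 i : ℂ) * Hc i v w := by
          rw [Finset.mul_sum]
          exact Finset.sum_congr rfl fun i _ => by ring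
        rw [h2]
        ring
      simp only [h1, ← Finset.mul_sum]
      ring
    · simp only [HH, map_add, map_mul, map_sum, map_sub, Complex.conj_ofReal, Complex.conj_natCast,
        ← hHK.1.symm, ← (hHM _).1.symm, ← (hc _).1.symm]
  let e : {g : Refls Γ // ¬ ∀ v, ¬ OnMirror Γ v} → (Σ j, {α // α ∈ T j}) → ℤ := fun g a =>
    m * (tM a.1 g.1 - ∑ i, (a.2.1 i : ℤ) * tc i g.1)
  have him : ∀ (t : ℝ) (s : (Σ j, {α // α ∈ T j}) → ℝ) (g : {g : Refls Γ // ¬ ∀ v, ¬ OnMirror Γ v}),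
      (HH t s (x g.1) (y g.1)).im = t * tK g.1 + ∑ a, s a * (e g a : ℝ) := by
    intro t s g
    have e1 : ((m : ℕ) : ℂ) = ((m : ℝ) : ℂ) := by push_cast; rfl
    have e2 : ∀ k : ℕ, ((k : ℕ) : ℂ) = ((k : ℝ) : ℂ) := fun k => by push_cast; rfl
    simp only [HH, e2, Complex.add_im, Complex.im_ofReal_mul, Complex.im_sum, Complex.sub_im, htK,
      htM, htc, e]
    rw [Finset.mul_sum]
    congr 1
    refine Finset.sum_congr rfl fun a _ => ?_
    push_cast
    ring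
  have hHβ : ∀ τ v, (HH 1 (s τ) v v).re
      = m * (clsY HK HM Hc (1 / m) δ v v - ∑ i, (β τ i : ℂ) * Hc i v v).re := by
    intro τ v
    have hm0 : (m : ℂ) ≠ 0 := by
      have : m ≠ 0 := by omega
      exact_mod_cast this
    have h1 : HH 1 (s τ) v v = (m : ℝ) * (clsY HK HM Hc (1 / m) δ v v
        - ∑ i, (β τ i : ℂ) * Hc i v v) := by
      simp only [HH, clsY, cls]
      have h2 : ∑ a : Σ j, {α // α ∈ T j}, (s τ a : ℂ) * HM a.1 v v
          = ∑ j, (δ j : ℂ) * HM j v v := by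
        rw [Fintype.sum_sigma]
        refine Finset.sum_congr rfl fun j _ => ?_
        rw [← hs τ j]
        push_cast
        rw [Finset.sum_mul]
      have h3 : ∑ a : Σ j, {α // α ∈ T j}, (s τ a : ℂ) * ∑ i, (a.2.1 i : ℂ) * Hc i v v
          = ∑ i, (1 + (β τ i : ℂ)) * Hc i v v := by
        have h4 : ∀ i, (1 + (β τ i : ℂ)) = ∑ a : Σ j, {α // α ∈ T j},
            (s τ a : ℂ) * (a.2.1 i : ℂ) := fun i => by exact_mod_cast (hsβ τ i).symm
        simp only [h4, Finset.mul_sum, Finset.sum_mul]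
        rw [Finset.sum_comm]
        exact Finset.sum_congr rfl fun k _ => Finset.sum_congr rfl fun a _ => by ring
      simp only [mul_sub, Finset.sum_sub_distrib]
      rw [h2, h3]
      simp only [add_mul, Finset.sum_add_distrib, one_mul]
      push_cast
      field_simp
      ring
    rw [h1, Complex.re_ofReal_mul]
  obtain ⟨κ, hκ, x', t, b, w, hx'0, ht1, hsumt, hsumb, hk⟩ := decomp_bdry T σ
    (fun g : {g : Refls Γ // ¬ ∀ v, ¬ OnMirror Γ v} => tK g.1) e (fun j => (hδ j).le) hs0 hs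
    (fun τ i => by rw [hsβ]; linarith [hβ0 τ i]) (fun τ i hi => by rw [hsβ, hβσ τ i hi, add_zero])
    (fun τ g => by
      have h1 := (ht _ (hHH 1 (s τ))).1 (fun a ha => by
        rw [hHβ]
        refine mul_nonneg (Nat.cast_nonneg _) ?_
        rcases hpos τ with h2 | h2
        · exact absurd h2 g.2
        · exact h2 a ha) g.1
      rw [him, one_mul] at h1
      exact h1)
  have hmR : (0 : ℝ) < m := by exact_mod_cast hm
  refine ⟨κ, hκ, fun k => x' k / m, t, fun k j => m * b k j, fun k => div_pos (hx'0 k) hmR, ht1,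
    ?_, fun j => ?_, fun k τ => ?_⟩
  · rw [← hsumt, Finset.sum_div]
    exact Finset.sum_congr rfl fun k _ => by ring
  · rw [← hsumb j]
    refine Finset.sum_congr rfl fun k _ => ?_
    push_cast
    field_simp
  · obtain ⟨hwb, hle, heq, hg⟩ := hk k τ
    set β' : ι → ℕ := fun i => m * (∑ a, w k τ a * a.2.1 i - t k) with hβ'
    have hβ'' : ∀ i, β' i + t k * m = m * ∑ a, w k τ a * a.2.1 i := by
      intro i
      have h1 := hle i
      obtain ⟨z, hz⟩ := Nat.exists_eq_add_of_le h1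
      simp only [β']
      rw [hz, Nat.add_sub_cancel_left]
      ring
    refine ⟨β', fun i hi => ?_, linEquiv_weights T hcls (w k τ) hwb hβ'', ?_⟩
    · simp only [β']
      rw [heq i hi, Nat.sub_self, mul_zero]
    · obtain ⟨hP, hP0⟩ := prod_coeff_ne (fun j α => (hF j).holo α) T hT fun a => m * w k τ a
      have hPe := pair_weights hK hF T (w k τ) hwb hβ''
      have hch := chern_weights hHK hHM hc T (w k τ) hwb hβ''
      have hHw : ∀ v, ((t k : ℂ) * HK v v +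
          m * ∑ a, (w k τ a : ℂ) * (HM a.1 v v - ∑ i, (a.2.1 i : ℂ) * Hc i v v))
          = HH (t k) (fun a => w k τ a) v v := fun v => by simp [HH]
      have hnef : IsNefForm fun v w' => (t k : ℂ) * HK v w' +
          m * ∑ a, (w k τ a : ℂ) * (HM a.1 v w' - ∑ i, (a.2.1 i : ℂ) * Hc i v w') := by
        by_cases hmir : ∀ v, ¬ OnMirror Γ v
        · exact nef_of_pair' hΓ hρ.holo (fun v hv => hmir v ((hρ.zero_iff v).1 hv)) hch hP hP0 hPe
        · refine nef_of_roots hΓ (inv_of_chern hch) (fun z hz => ?_) fun a ha => ?_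
          · obtain ⟨hH, F', hF', hFe⟩ := hch
            exact pair_fixed hΓ hρ hP hP0 hPe hH ⟨hF', hFe⟩ hz
          · have h1 := (ht _ (hHH (t k) fun a => w k τ a)).2 (fun g => by
              have h2 := him (t k) (fun a => w k τ a) ⟨g, hmir⟩
              change (HH (t k) (fun a => w k τ a) (x g) (y g)).im = _ at h2
              rw [h2]
              have h3 := hg ⟨g, hmir⟩
              exact_mod_cast h3) a ha
            rw [← hHw] at h1
            exact h1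
      obtain ⟨hH, F', hF', hFe⟩ := hch
      exact gg_of_pair hΓ hH ⟨hF', hFe⟩ hρ hP hP0 hPe hnef

end Q47.TR
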